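import Mathlib
import Pool.Agent.H332R2.CastLem

/-!
# The addition theorem of `coth` and the Bernoulli numbers
-/

set_option autoImplicit false

namespace Pool.Agent.TH350.AddF

open PowerSeries Finset

/-- `x/(e^x-1) + x/2` -/
noncomputable def YY : PowerSeries ℚ := bernoulliPowerSeries ℚ + C (1 / 2 : ℚ) * X

noncomputable def EE : PowerSeries ℚ := exp ℚ

lemma YY_mul (a : ℚ) : (rescale a EE - 1) * rescale a YY = C (a / 2) * X * (rescale a EE + 1) := by
  have h := bernoulliPowerSeries_mul_exp_sub_one ℚ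
  have h1 := congrArg (rescale a) h
  rw [map_mul, map_sub, map_one, rescale_X] at h1
  unfold YY
  rw [map_add, map_mul, rescale_X]
  have e : rescale a (C (1 / 2 : ℚ)) = C (1 / 2 : ℚ) := by
    ext n
    rw [coeff_rescale, coeff_C]
    split_ifs with hn
    · subst hn; simp
    · simp
  rw [e]
  have e2 : (C (a / 2) : PowerSeries ℚ) = C (1 / 2 : ℚ) * C a := by
    rw [← map_mul]; congr 1; ring
  rw [e2]
  have e3 : (C (1 / 2 : ℚ) : PowerSeries ℚ) + C (1 / 2 : ℚ) = 1 := by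
    rw [← map_add, ← map_one (C (R := ℚ))]; congr 1; norm_num
  unfold EE at *
  linear_combination h1 - (C a * X) * e3

lemma EE_add (a b : ℚ) : rescale a EE * rescale b EE = rescale (a + b) EE := by
  unfold EE
  exact exp_mul_exp_eq_exp_add a b

lemma EE_ne (a : ℚ) (ha : a ≠ 0) : rescale a EE - 1 ≠ 0 := by
  intro h
  have := congrArg (coeff 1) h
  rw [map_sub, coeff_rescale, coeff_one] at this
  unfold EE at this
  rw [coeff_exp] at this
  simp at this
  exact ha this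

theorem addition (a b : ℚ) (ha : a ≠ 0) (hb : b ≠ 0) (hab : a + b ≠ 0) :
    rescale (a + b) YY * (C b * rescale a YY + C a * rescale b YY)
      = C (a + b) * (rescale a YY * rescale b YY + C (a * b / 4) * X ^ 2) := by
  have h1 := YY_mul a
  have h2 := YY_mul b
  have h3 := YY_mul (a + b)
  rw [← EE_add a b] at h3
  have n1 := EE_ne a ha
  have n2 := EE_ne b hb
  have n3 := EE_ne (a + b) hab
  rw [← EE_add a b] at n3
  set u := rescale a EE
  set v := rescale b EE
  set Ya := rescale a YY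
  set Yb := rescale b YY
  set Yc := rescale (a + b) YY
  apply mul_left_cancel₀ (mul_ne_zero (mul_ne_zero n1 n2) n3)
  have c1 : (C (a / 2) : PowerSeries ℚ) = C (1 / 2 : ℚ) * C a := by
    rw [← map_mul]; congr 1; ring
  have c2 : (C (b / 2) : PowerSeries ℚ) = C (1 / 2 : ℚ) * C b := by
    rw [← map_mul]; congr 1; ring
  have c3 : (C ((a + b) / 2) : PowerSeries ℚ) = C (1 / 2 : ℚ) * (C a + C b) := by
    rw [← map_add, ← map_mul]; congr 1; ring
  have c4 : (C (a * b / 4) : PowerSeries ℚ) = C (1 / 2 : ℚ) * C (1 / 2 : ℚ) * (C a * C b) := by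
    rw [← map_mul, ← map_mul, ← map_mul]; congr 1; ring
  have c5 : (C (a + b) : PowerSeries ℚ) = C a + C b := map_add _ _ _
  rw [c1] at h1
  rw [c2] at h2
  rw [c3] at h3
  rw [c4, c5]
  have L : (u - 1) * (v - 1) * (u * v - 1) * (Yc * (C b * Ya + C a * Yb)) =
      ((u * v - 1) * Yc) * (C b * ((u - 1) * Ya) * (v - 1) + C a * ((v - 1) * Yb) * (u - 1)) := by ring
  have R : (u - 1) * (v - 1) * (u * v - 1) * ((C a + C b) * (Ya * Yb +
      C (1 / 2 : ℚ) * C (1 / 2 : ℚ) * (C a * C b) * X ^ 2)) =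
      (C a + C b) * (u * v - 1) * (((u - 1) * Ya) * ((v - 1) * Yb) + (u - 1) * (v - 1) *
        (C (1 / 2 : ℚ) * C (1 / 2 : ℚ) * (C a * C b) * X ^ 2)) := by ring
  rw [L, R, h1, h2, h3]
  ring

noncomputable def yy (n : ℕ) : ℚ := coeff n YY

lemma yy_odd (m : ℕ) : yy (2 * m + 1) = 0 := by
  unfold yy YY bernoulliPowerSeries
  rw [map_add, coeff_mk, coeff_C_mul, coeff_X]
  rcases Nat.eq_zero_or_pos m with rfl | hm
  · simp
    norm_num
  · rw [if_neg (by omega), bernoulli_eq_zero_of_odd ⟨m, rfl⟩ (by omega)]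
    simp

lemma yy_even (m : ℕ) : yy (2 * m) = bernoulli (2 * m) * ((2 * m).factorial : ℚ)⁻¹ := by
  unfold yy YY bernoulliPowerSeries
  rw [map_add, coeff_mk, coeff_C_mul, coeff_X, if_neg (by omega)]
  simp [div_eq_mul_inv]

lemma coeff_prod (k : ℕ) (a b : ℚ) :
    coeff (2 * k) (rescale a YY * rescale b YY) =
      ∑ i ∈ range (k + 1), yy (2 * i) * yy (2 * (k - i)) * (a ^ (2 * i) * b ^ (2 * (k - i))) := by
  rw [coeff_mul, Finset.Nat.sum_antidiagonal_eq_sum_range_succ_mk]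
  have h1 : ∀ m : ℕ, ∑ i ∈ range (2 * m + 1), (coeff i (rescale a YY) * coeff (2 * k - i) (rescale b YY)) =
      ∑ i ∈ range (m + 1), coeff (2 * i) (rescale a YY) * coeff (2 * k - 2 * i) (rescale b YY) := by
    intro m
    induction m with
    | zero => simp
    | succ m ih =>
      rw [show 2 * (m + 1) + 1 = (2 * m + 1) + 1 + 1 by ring, Finset.sum_range_succ,
        Finset.sum_range_succ, ih, Finset.sum_range_succ _ (m + 1)]
      have : coeff (2 * m + 1) (rescale a YY) = 0 := by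
        rw [coeff_rescale]
        have := yy_odd m
        unfold yy at this
        rw [this, mul_zero]
      rw [this, zero_mul, add_zero]
      rfl
  have h2 := h1 k
  rw [Nat.succ_eq_add_one, h2]
  refine Finset.sum_congr rfl (fun i hi => ?_)
  rw [coeff_rescale, coeff_rescale]
  rw [← Nat.mul_sub]
  unfold yy
  ring

theorem identity_rat (k t : ℕ) (hk : 2 ≤ k) (ht : 1 ≤ t) :
    ∑ i ∈ range (k + 1), yy (2 * i) * yy (2 * (k - i)) *
      (((t : ℚ) + 1) ^ (2 * i) * ((t : ℚ) ^ (2 * (k - i)) + t) - ((t : ℚ) + 1) * (t : ℚ) ^ (2 * i)) = 0 := by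
  have ht0 : (t : ℚ) ≠ 0 := by positivity
  have ht1 : (t : ℚ) + 1 ≠ 0 := by positivity
  have h := addition t 1 ht0 one_ne_zero ht1
  have h1 := congrArg (coeff (2 * k)) h
  rw [mul_add, map_add] at h1
  have e1 : rescale ((t : ℚ) + 1) YY * (C (1 : ℚ) * rescale (t : ℚ) YY) =
      rescale ((t : ℚ) + 1) YY * rescale (t : ℚ) YY := by rw [map_one, one_mul]
  have e2 : rescale ((t : ℚ) + 1) YY * (C (t : ℚ) * rescale (1 : ℚ) YY) =
      C (t : ℚ) * (rescale ((t : ℚ) + 1) YY * rescale (1 : ℚ) YY) := by ring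
  rw [e1, e2, coeff_C_mul, coeff_C_mul, map_add, coeff_prod, coeff_prod, coeff_prod, coeff_C_mul,
    coeff_X_pow, if_neg (by omega), mul_zero, add_zero] at h1
  have : ∑ i ∈ range (k + 1), yy (2 * i) * yy (2 * (k - i)) *
      (((t : ℚ) + 1) ^ (2 * i) * ((t : ℚ) ^ (2 * (k - i)) + t) - ((t : ℚ) + 1) * (t : ℚ) ^ (2 * i)) =
      ∑ i ∈ range (k + 1), yy (2 * i) * yy (2 * (k - i)) * (((t : ℚ) + 1) ^ (2 * i) * (t : ℚ) ^ (2 * (k - i)))
      + (t : ℚ) * ∑ i ∈ range (k + 1), yy (2 * i) * yy (2 * (k - i)) * (((t : ℚ) + 1) ^ (2 * i) * 1 ^ (2 * (k - i)))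
      - ((t : ℚ) + 1) * ∑ i ∈ range (k + 1), yy (2 * i) * yy (2 * (k - i)) * ((t : ℚ) ^ (2 * i) * 1 ^ (2 * (k - i))) := by
    rw [Finset.mul_sum, Finset.mul_sum, ← Finset.sum_add_distrib, ← Finset.sum_sub_distrib]
    refine Finset.sum_congr rfl (fun i _ => ?_)
    rw [one_pow]; ring
  rw [this]
  linear_combination h1

end Pool.Agent.TH350.AddF
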