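import Mathlib

/-!
# A zero estimate at `X = -1` for sums of few polynomials `X^e (X+1)^a`, degree `< p`
-/

set_option autoImplicit false

namespace Pool.Agent.TH350.WZ

open Polynomial Finset

variable {F : Type*} [Field F]

/-- the derivation `X (X+1) d/dX` -/
noncomputable def dl (g : F[X]) : F[X] := X * (X + 1) * derivative g

lemma dl_add (g h : F[X]) : dl (g + h) = dl g + dl h := by
  unfold dl; rw [derivative_add]; ring

lemma dl_mul (g h : F[X]) : dl (g * h) = dl g * h + g * dl h := by
  unfold dl; rw [derivative_mul]; ring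

lemma dl_C_mul (c : F) (g : F[X]) : dl (C c * g) = C c * dl g := by
  unfold dl; rw [derivative_C_mul]; ring

lemma dl_zero : dl (0 : F[X]) = 0 := by unfold dl; simp

lemma dl_sum {ι : Type*} (s : Finset ι) (f : ι → F[X]) :
    dl (∑ i ∈ s, f i) = ∑ i ∈ s, dl (f i) := by
  classical
  induction s using Finset.induction_on with
  | empty => simp [dl_zero]
  | insert a s ha ih => rw [Finset.sum_insert ha, Finset.sum_insert ha, dl_add, ih]

lemma dl_iter_sum {ι : Type*} (s : Finset ι) (f : ι → F[X]) (n : ℕ) :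
    dl^[n] (∑ i ∈ s, f i) = ∑ i ∈ s, dl^[n] (f i) := by
  induction n with
  | zero => rfl
  | succ n ih =>
    rw [Function.iterate_succ_apply', ih, dl_sum]
    refine Finset.sum_congr rfl (fun i _ => ?_)
    rw [Function.iterate_succ_apply']

lemma dl_iter_C_mul (c : F) (g : F[X]) (n : ℕ) : dl^[n] (C c * g) = C c * dl^[n] g := by
  induction n with
  | zero => rfl
  | succ n ih => rw [Function.iterate_succ_apply', ih, dl_C_mul, Function.iterate_succ_apply']

/-- the monomials `X^e (X+1)^a` -/
noncomputable def ph (s : ℕ × ℕ) : F[X] := X ^ s.1 * (X + 1) ^ s.2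

/-- the factors: `dl^[i] (ph s) = ph s * Gs s i` -/
noncomputable def Gs (s : ℕ × ℕ) : ℕ → F[X]
  | 0 => 1
  | (i + 1) => dl (Gs s i) + (C (s.1 : F) * (X + 1) + C (s.2 : F) * X) * Gs s i

lemma dl_ph (s : ℕ × ℕ) : dl (ph s : F[X]) = ph s * (C (s.1 : F) * (X + 1) + C (s.2 : F) * X) := by
  obtain ⟨e, a⟩ := s
  have h1 : X * derivative (X ^ e : F[X]) = C (e : F) * X ^ e := by
    rcases Nat.eq_zero_or_pos e with rfl | he
    · simp
    · rw [derivative_X_pow]
      have : (X ^ e : F[X]) = X * X ^ (e - 1) := by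
        rw [← pow_succ']; congr 1; omega
      rw [this]; ring
  have h2 : (X + 1) * derivative ((X + 1) ^ a : F[X]) = C (a : F) * (X + 1) ^ a := by
    rcases Nat.eq_zero_or_pos a with rfl | ha
    · simp
    · rw [derivative_pow]
      have : ((X + 1) ^ a : F[X]) = (X + 1) * (X + 1) ^ (a - 1) := by
        rw [← pow_succ']; congr 1; omega
      rw [this]; simp; ring
  unfold dl ph
  simp only
  rw [derivative_mul]
  linear_combination ((X + 1) ^ a * (X + 1)) * h1 + (X ^ e * X) * h2

lemma dl_iter_ph (s : ℕ × ℕ) (i : ℕ) : dl^[i] (ph s : F[X]) = ph s * Gs s i := by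
  induction i with
  | zero => simp [Gs]
  | succ i ih =>
    rw [Function.iterate_succ_apply', ih, dl_mul, dl_ph, Gs]; ring

lemma natDegree_dl (g : F[X]) (n : ℕ) (hg : g.natDegree ≤ n) : (dl g).natDegree ≤ n + 1 := by
  unfold dl
  rcases Nat.eq_zero_or_pos g.natDegree with h | h
  · have : derivative g = 0 := by
      rw [Polynomial.natDegree_eq_zero] at h
      obtain ⟨c, rfl⟩ := h
      simp
    rw [this]; simp
  · have h1 : (derivative g).natDegree ≤ g.natDegree - 1 := natDegree_derivative_le g
    have h2 : (X * (X + 1) : F[X]).natDegree ≤ 2 := by compute_degree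
    have h3 := natDegree_mul_le (p := (X * (X + 1) : F[X])) (q := derivative g)
    omega

lemma natDegree_Gs (s : ℕ × ℕ) (i : ℕ) : (Gs s i : F[X]).natDegree ≤ i := by
  induction i with
  | zero => simp [Gs]
  | succ i ih =>
    rw [Gs]
    refine (natDegree_add_le _ _).trans (max_le (natDegree_dl _ _ ih) ?_)
    have h2 : (C (s.1 : F) * (X + 1) + C (s.2 : F) * X : F[X]).natDegree ≤ 1 := by compute_degree
    have h3 := natDegree_mul_le (p := (C (s.1 : F) * (X + 1) + C (s.2 : F) * X : F[X])) (q := Gs s i)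
    omega

lemma dvd_dl (M : ℕ) (f : F[X]) (h : (X + 1) ^ M ∣ f) : (X + 1) ^ M ∣ dl f := by
  obtain ⟨g, rfl⟩ := h
  rcases Nat.eq_zero_or_pos M with rfl | hM
  · simp
  · unfold dl
    rw [derivative_mul, derivative_pow]
    have e : (X + 1 : F[X]) ^ M = (X + 1) ^ (M - 1) * (X + 1) := by
      rw [← pow_succ]; congr 1; omega
    refine ⟨X * (C (M : F) * g + (X + 1) * derivative g), ?_⟩
    rw [e]
    simp
    ring

lemma dvd_dl_iter (M : ℕ) (f : F[X]) (h : (X + 1) ^ M ∣ f) (i : ℕ) : (X + 1) ^ M ∣ dl^[i] f := by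
  induction i with
  | zero => exact h
  | succ i ih => rw [Function.iterate_succ_apply']; exact dvd_dl M _ ih

/-- orders at zero -/
lemma dl_iter_order (n : ℕ) (g : F[X]) (i : ℕ) :
    ∃ h : F[X], dl^[i] (X ^ n * g) = X ^ n * h ∧ h.coeff 0 = (n : F) ^ i * g.coeff 0 := by
  induction i with
  | zero => exact ⟨g, rfl, by simp⟩
  | succ i ih =>
    obtain ⟨h, h1, h2⟩ := ih
    refine ⟨C (n : F) * (X + 1) * h + X * (X + 1) * derivative h, ?_, ?_⟩
    · rw [Function.iterate_succ_apply', h1, dl_mul]
      have := dl_ph (F := F) (n, 0)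
      unfold ph at this
      simp only [pow_zero, mul_one, Nat.cast_zero, map_zero, zero_mul, add_zero] at this
      rw [this]
      unfold dl
      ring
    · rw [coeff_add, mul_assoc, mul_assoc, coeff_C_mul, mul_coeff_zero, mul_coeff_zero (X : F[X])]
      simp [h2, pow_succ']
      ring

/-- Wronskian-type nonvanishing: linearly independent polynomials of degree `< p` in characteristic
`p` satisfy no linear differential equation of order smaller than their number. -/
theorem nonvanish (p : ℕ) [Fact p.Prime] [CharP F p] (N : ℕ) (φ : Fin N → F[X])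
    (hφ : LinearIndependent F φ) (hdeg : ∀ j, (φ j).natDegree < p) (u : Fin N → F[X])
    (hu : ∀ j, ∑ i : Fin N, u i * dl^[(i : ℕ)] (φ j) = 0) : u = 0 := by
  classical
  by_contra hne
  have hex : ∃ m : ℕ, ∃ i, (u i).coeff m ≠ 0 := by
    by_contra hcon
    push Not at hcon
    apply hne
    funext i
    ext m
    simpa using hcon m i
  obtain ⟨i0, hi0⟩ := Nat.find_spec hex
  set D := Nat.find hex with hD
  have hmin : ∀ m < D, ∀ i, (u i).coeff m = 0 := by
    intro m hm i
    have := Nat.find_min hex hm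
    push Not at this
    exact this i
  have hdv : ∀ i, ∃ v : F[X], u i = X ^ D * v := by
    intro i
    have : X ^ D ∣ u i := by
      rw [X_pow_dvd_iff]
      intro m hm
      exact hmin m hm i
    exact this
  choose v hv using hdv
  have hv0 : ∀ i, (v i).coeff 0 = (u i).coeff D := by
    intro i
    rw [hv i, coeff_X_pow_mul']
    simp
  -- the equation for v, extended to all combinations
  have heq : ∀ c : Fin N → F, ∑ i : Fin N, v i * dl^[(i : ℕ)] (∑ j, C (c j) * φ j) = 0 := by
    intro c
    have h1 : ∀ j, ∑ i : Fin N, v i * dl^[(i : ℕ)] (φ j) = 0 := by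
      intro j
      have h2 := hu j
      have h3 : ∑ i : Fin N, u i * dl^[(i : ℕ)] (φ j) = X ^ D * ∑ i : Fin N, v i * dl^[(i : ℕ)] (φ j) := by
        rw [Finset.mul_sum]
        refine Finset.sum_congr rfl (fun i _ => ?_)
        rw [hv i]; ring
      rw [h3] at h2
      rcases mul_eq_zero.1 h2 with h4 | h4
      · exact absurd h4 (pow_ne_zero _ X_ne_zero)
      · exact h4
    have h2 : ∑ i : Fin N, v i * dl^[(i : ℕ)] (∑ j, C (c j) * φ j)
        = ∑ j, C (c j) * ∑ i : Fin N, v i * dl^[(i : ℕ)] (φ j) := by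
      simp only [dl_iter_sum, dl_iter_C_mul, Finset.mul_sum]
      rw [Finset.sum_comm]
      refine Finset.sum_congr rfl (fun j _ => Finset.sum_congr rfl (fun i _ => ?_))
      ring
    rw [h2]
    refine Finset.sum_eq_zero (fun j _ => ?_)
    rw [h1 j, mul_zero]
  set q : F[X] := ∑ i : Fin N, C ((v i).coeff 0) * X ^ (i : ℕ) with hq
  have hqc : ∀ i : Fin N, q.coeff i = (v i).coeff 0 := by
    intro i
    rw [hq, finsetSum_coeff]
    rw [Finset.sum_eq_single i]
    · simp
    · intro j _ hj
      rw [coeff_C_mul, coeff_X_pow, if_neg, mul_zero]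
      intro h
      exact hj (Fin.ext h).symm
    · simp
  have hq0 : q ≠ 0 := by
    intro h
    have := hqc i0
    rw [h, coeff_zero, hv0] at this
    exact hi0 this.symm
  have hqn : q.natDegree < N := by
    have hNpos : 0 < N := lt_of_le_of_lt (Nat.zero_le _) i0.2
    have : q.natDegree ≤ N - 1 := by
      rw [hq]
      refine natDegree_sum_le_of_forall_le _ _ (fun i _ => ?_)
      refine (natDegree_C_mul_X_pow_le _ _).trans ?_
      have := i.2
      omega
    omega
  set O : Finset ℕ := (range p).filter (fun n => q.eval (n : F) = 0) with hO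
  have hOcard : O.card < N := by
    have h1 : (O.image (fun n : ℕ => (n : F))).card = O.card := by
      refine Finset.card_image_of_injOn ?_
      intro a ha b hb hab
      rw [Finset.mem_coe, hO, Finset.mem_filter, Finset.mem_range] at ha hb
      exact CharP.natCast_injOn_Iio F p ha.1 hb.1 hab
    have h2 : O.image (fun n : ℕ => (n : F)) ⊆ q.roots.toFinset := by
      intro x hx
      rw [Finset.mem_image] at hx
      obtain ⟨n, hn, rfl⟩ := hx
      rw [hO, Finset.mem_filter] at hn
      rw [Multiset.mem_toFinset, mem_roots hq0]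
      exact hn.2
    have h3 := Finset.card_le_card h2
    have h4 := Multiset.toFinset_card_le q.roots
    have h5 := card_roots' q
    omega
  -- orders of combinations
  have hord : ∀ c : Fin N → F, (∑ j, C (c j) * φ j) ≠ 0 →
      ∃ n ∈ O, (∑ j, C (c j) * φ j).coeff n ≠ 0 := by
    intro c hc
    set g := ∑ j, C (c j) * φ j with hg
    have hgd : g.natDegree < p := by
      have : g.natDegree ≤ p - 1 := by
        rw [hg]
        refine natDegree_sum_le_of_forall_le _ _ (fun j _ => ?_)
        have h1 := hdeg j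
        have h2 := natDegree_C_mul_le (c j) (φ j)
        omega
      have hp := (Fact.out : p.Prime).pos
      omega
    set n := g.natTrailingDegree with hn
    have hgn : g.coeff n ≠ 0 := by
      rw [hn]
      exact trailingCoeff_nonzero_iff_nonzero.2 hc
    refine ⟨n, ?_, hgn⟩
    rw [hO, Finset.mem_filter, Finset.mem_range]
    have hnle : n ≤ g.natDegree := natTrailingDegree_le_natDegree g
    refine ⟨by omega, ?_⟩
    have hXn : X ^ n ∣ g := by
      rw [X_pow_dvd_iff]
      intro m hm
      exact coeff_eq_zero_of_lt_natTrailingDegree hm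
    obtain ⟨g', hg'⟩ := hXn
    have hg'0 : g'.coeff 0 = g.coeff n := by
      rw [hg', coeff_X_pow_mul']
      simp
    have h1 := heq c
    rw [← hg, hg'] at h1
    have h2 := fun i : Fin N => dl_iter_order (F := F) n g' (i : ℕ)
    choose h h21 h22 using h2
    have h3 : X ^ n * ∑ i : Fin N, v i * h i = 0 := by
      rw [← h1, Finset.mul_sum]
      refine Finset.sum_congr rfl (fun i _ => ?_)
      rw [h21 i]; ring
    rcases mul_eq_zero.1 h3 with h4 | h4
    · exact absurd h4 (pow_ne_zero _ X_ne_zero)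
    · have h5 := congrArg (fun f : F[X] => f.coeff 0) h4
      simp only [finsetSum_coeff, mul_coeff_zero, coeff_zero, h22] at h5
      have h6 : q.eval (n : F) * g'.coeff 0 = 0 := by
        rw [← h5, hq, eval_finsetSum, Finset.sum_mul]
        refine Finset.sum_congr rfl (fun i _ => ?_)
        simp
        ring
      rcases mul_eq_zero.1 h6 with h7 | h7
      · exact h7
      · exact absurd (hg'0 ▸ h7) hgn
  -- dimension count
  let T : (Fin N → F) →ₗ[F] (O → F) :=
    { toFun := fun c n => (∑ j, C (c j) * φ j).coeff (n : ℕ)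
      map_add' := by
        intro c d
        funext n
        simp only [Pi.add_apply, map_add, add_mul, Finset.sum_add_distrib, coeff_add]
      map_smul' := by
        intro c d
        funext n
        simp only [Pi.smul_apply, smul_eq_mul, RingHom.id_apply, finsetSum_coeff, coeff_C_mul,
          Finset.mul_sum, mul_assoc] }
  have hTinj : Function.Injective T := by
    rw [← LinearMap.ker_eq_bot, LinearMap.ker_eq_bot']
    intro c hc
    by_contra hcne
    have hsum : (∑ j, C (c j) * φ j) ≠ 0 := by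
      intro h0
      apply hcne
      funext j
      refine (Fintype.linearIndependent_iff.1 hφ) c ?_ j
      rw [← h0]
      refine Finset.sum_congr rfl (fun j _ => ?_)
      rw [Polynomial.smul_eq_C_mul]
    obtain ⟨n, hnO, hn⟩ := hord c hsum
    have := congrFun hc ⟨n, hnO⟩
    exact hn this
  have hfin := LinearMap.finrank_le_finrank_of_injective hTinj
  rw [Module.finrank_fintype_fun_eq_card, Module.finrank_fintype_fun_eq_card, Fintype.card_fin,
    Fintype.card_coe] at hfin
  omega

lemma natDegree_detG (N : ℕ) (s : Fin N → ℕ × ℕ) :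
    2 * (Matrix.of fun i j : Fin N => (Gs (s j) (i : ℕ) : F[X])).det.natDegree ≤ N * (N - 1) := by
  have h : (Matrix.of fun i j : Fin N => (Gs (s j) (i : ℕ) : F[X])).det.natDegree ≤
      ∑ i : Fin N, (i : ℕ) := by
    rw [Matrix.det_apply]
    refine natDegree_sum_le_of_forall_le _ _ (fun σ _ => ?_)
    have h1 : (Equiv.Perm.sign σ • ∏ i : Fin N, (Matrix.of fun i j : Fin N =>
        (Gs (s j) (i : ℕ) : F[X])) (σ i) i).natDegree ≤ (∏ i : Fin N, (Gs (s i) (σ i : ℕ) : F[X])).natDegree := by
      rcases Int.units_eq_one_or (Equiv.Perm.sign σ) with h | h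
      · rw [h]; simp
      · rw [h]; simp
    refine h1.trans ((natDegree_prod_le _ _).trans ?_)
    calc ∑ i : Fin N, (Gs (s i) (σ i : ℕ) : F[X]).natDegree ≤ ∑ i : Fin N, (σ i : ℕ) :=
          Finset.sum_le_sum (fun i _ => natDegree_Gs _ _)
      _ = ∑ i : Fin N, (i : ℕ) := Equiv.sum_comp σ (fun i : Fin N => (i : ℕ))
  have h2 : ∑ i : Fin N, (i : ℕ) = ∑ i ∈ range N, i := Fin.sum_univ_eq_sum_range (fun i => i) N
  have h3 := Finset.sum_range_id_mul_two N
  rw [h2] at h
  omega

theorem zest_li (p : ℕ) [Fact p.Prime] [CharP F p] (N : ℕ) (s : Fin N → ℕ × ℕ)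
    (hs : ∀ j, (s j).1 + (s j).2 < p) (hli : LinearIndependent F (fun j => (ph (s j) : F[X])))
    (c : Fin N → F) (M : ℕ) (hM : (X + 1) ^ M ∣ ∑ j, C (c j) * (ph (s j) : F[X])) (j0 : Fin N)
    (hc : c j0 ≠ 0) (hj0 : s j0 = (0, 0)) : 2 * M ≤ N * (N - 1) := by
  classical
  set G : Matrix (Fin N) (Fin N) F[X] := Matrix.of fun i j : Fin N => (Gs (s j) (i : ℕ) : F[X]) with hG
  have hphd : ∀ j, (ph (s j) : F[X]).natDegree < p := by
    intro j
    unfold ph
    have h1 := natDegree_mul_le (p := (X ^ (s j).1 : F[X])) (q := (X + 1) ^ (s j).2)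
    have h2 : (X ^ (s j).1 : F[X]).natDegree ≤ (s j).1 := natDegree_X_pow_le _
    have h3 : ((X + 1) ^ (s j).2 : F[X]).natDegree ≤ (s j).2 := by
      refine natDegree_pow_le.trans ?_
      have : (X + 1 : F[X]).natDegree ≤ 1 := by compute_degree
      nlinarith
    have := hs j
    omega
  have hdet : G.det ≠ 0 := by
    intro h0
    obtain ⟨u, hu0, hu⟩ := Matrix.exists_vecMul_eq_zero_iff.2 h0
    apply hu0
    refine nonvanish p N _ hli hphd u (fun j => ?_)
    have h1 := congrFun hu j
    simp only [Matrix.vecMul, dotProduct, Pi.zero_apply, hG, Matrix.of_apply] at h1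
    have h2 : ∑ i : Fin N, u i * dl^[(i : ℕ)] (ph (s j) : F[X]) =
        ph (s j) * ∑ i : Fin N, u i * Gs (s j) (i : ℕ) := by
      rw [Finset.mul_sum]
      refine Finset.sum_congr rfl (fun i _ => ?_)
      rw [dl_iter_ph]; ring
    rw [h2, h1, mul_zero]
  set f : F[X] := ∑ j, C (c j) * (ph (s j) : F[X]) with hf
  have hGm : G.mulVec (fun j => C (c j) * ph (s j)) = fun i : Fin N => dl^[(i : ℕ)] f := by
    funext i
    rw [hf, dl_iter_sum]
    simp only [Matrix.mulVec, dotProduct, hG, Matrix.of_apply]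
    refine Finset.sum_congr rfl (fun j _ => ?_)
    rw [dl_iter_C_mul, dl_iter_ph]; ring
  have hadj : G.det • (fun j => C (c j) * ph (s j)) = G.adjugate.mulVec (fun i : Fin N => dl^[(i : ℕ)] f) := by
    rw [← hGm, Matrix.mulVec_mulVec, Matrix.adjugate_mul, Matrix.smul_mulVec, Matrix.one_mulVec]
  have hdvd : (X + 1) ^ M ∣ G.det := by
    have h1 := congrFun hadj j0
    simp only [Pi.smul_apply, smul_eq_mul, Matrix.mulVec, dotProduct] at h1
    have h2 : (X + 1) ^ M ∣ G.det * (C (c j0) * ph (s j0)) := by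
      rw [h1]
      refine Finset.dvd_sum (fun i _ => ?_)
      exact Dvd.dvd.mul_left (dvd_dl_iter M f hM _) _
    have h3 : (ph (s j0) : F[X]) = 1 := by
      rw [hj0]; simp [ph]
    rw [h3, mul_one] at h2
    have h4 : G.det = G.det * C (c j0) * C ((c j0)⁻¹) := by
      rw [mul_assoc, ← C_mul, mul_inv_cancel₀ hc, C_1, mul_one]
    rw [h4]
    exact Dvd.dvd.mul_right h2 _
  have h5 := natDegree_le_of_dvd hdvd hdet
  have h6 : ((X + 1 : F[X]) ^ M).natDegree = M := by
    have e : (X + 1 : F[X]) = X + C 1 := by simp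
    rw [natDegree_pow, e, natDegree_X_add_C, mul_one]
  rw [h6] at h5
  have h7 := natDegree_detG (F := F) N s
  rw [← hG] at h7
  omega

theorem zest (p : ℕ) [Fact p.Prime] [CharP F p] (S : Finset (ℕ × ℕ))
    (hS : ∀ s ∈ S, s.1 + s.2 < p) (h0 : ∀ s ∈ S, s.1 = 0 → s.2 = 0) (f : F[X]) (M : ℕ)
    (hfS : f ∈ Submodule.span F (ph '' (S : Set (ℕ × ℕ))))
    (hM : (X + 1) ^ M ∣ f) (hf : f.coeff 0 ≠ 0) : 2 * M ≤ S.card * (S.card - 1) := by
  classical
  set B0 : Set F[X] := ((S.image (fun s => (ph s : F[X])) : Finset F[X]) : Set F[X]) with hB0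
  obtain ⟨b, hb1, hb2, hb3⟩ := exists_linearIndependent F B0
  have hbfin : b.Finite := (Finset.finite_toSet _).subset hb1
  have hfb : f ∈ Submodule.span F b := by
    rw [hb2, hB0, Finset.coe_image]
    exact hfS
  let bf : Finset F[X] := hbfin.toFinset
  have hbf : ∀ x, x ∈ bf ↔ x ∈ b := fun x => Set.Finite.mem_toFinset hbfin
  have hcard : bf.card ≤ S.card := by
    refine (Finset.card_le_card (t := S.image (fun s => (ph s : F[X]))) ?_).trans Finset.card_image_le
    intro x hx
    have := hb1 ((hbf x).1 hx)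
    rwa [hB0, Finset.mem_coe] at this
  let en : Fin bf.card ≃ bf := bf.equivFin.symm
  have hsx : ∀ j : Fin bf.card, ∃ s ∈ S, ph s = ((en j : bf) : F[X]) := by
    intro j
    have := hb1 ((hbf _).1 (en j).2)
    rw [hB0, Finset.mem_coe, Finset.mem_image] at this
    exact this
  choose s hsS hs using hsx
  have hli : LinearIndependent F (fun j => (ph (s j) : F[X])) := by
    have h1 : LinearIndependent F (fun x : bf => (x : F[X])) := by
      have h2 : LinearIndependent F ((Subtype.val : b → F[X]) ∘
          (fun x : bf => (⟨x.1, (hbf x.1).1 x.2⟩ : b))) := by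
        refine hb3.comp _ ?_
        intro x y hxy
        have := congrArg Subtype.val hxy
        exact Subtype.ext this
      exact h2
    have h3 := h1.comp en en.injective
    have h4 : (fun j => (ph (s j) : F[X])) = (fun x : bf => (x : F[X])) ∘ en := by
      funext j
      rw [hs j]; rfl
    rw [h4]
    exact h3
  have hrange : Set.range (fun j => (ph (s j) : F[X])) = b := by
    ext x
    constructor
    · rintro ⟨j, rfl⟩
      simp only [hs j]
      exact (hbf _).1 (en j).2
    · intro hx
      refine ⟨en.symm ⟨x, (hbf x).2 hx⟩, ?_⟩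
      simp only [hs]
      rw [Equiv.apply_symm_apply]
  rw [← hrange] at hfb
  obtain ⟨c', hc'⟩ := (Submodule.mem_span_range_iff_exists_fun F).1 hfb
  have hsum : f = ∑ j, C (c' j) * (ph (s j) : F[X]) := by
    rw [← hc']
    refine Finset.sum_congr rfl (fun j _ => ?_)
    rw [Polynomial.smul_eq_C_mul]
  have hj0 : ∃ j0, (C (c' j0) * (ph (s j0) : F[X])).coeff 0 ≠ 0 := by
    by_contra hcon
    push Not at hcon
    apply hf
    rw [hsum, finsetSum_coeff]
    exact Finset.sum_eq_zero (fun j _ => hcon j)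
  obtain ⟨j0, hj0⟩ := hj0
  rw [coeff_C_mul] at hj0
  have hc0 : c' j0 ≠ 0 := left_ne_zero_of_mul hj0
  have hp0 := right_ne_zero_of_mul hj0
  have he : (s j0).1 = 0 := by
    by_contra hne
    apply hp0
    unfold ph
    rw [mul_coeff_zero, coeff_X_pow, if_neg (fun h => hne h.symm), zero_mul]
  have ha := h0 _ (hsS j0) he
  have hz := zest_li p bf.card s (fun j => hS _ (hsS j)) hli c' M (hsum ▸ hM) j0 hc0
    (Prod.ext he ha)
  refine hz.trans ?_
  exact Nat.mul_le_mul hcard (Nat.sub_le_sub_right hcard 1)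

end Pool.Agent.TH350.WZ
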