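import Mathlib
import Pool.Agent.TH350.RC.WZ
import Pool.Agent.TH350.RC.AddF

/-!
# Every regular index is a sum of two regular indices in many ways
-/

set_option autoImplicit false

namespace Pool.Agent.TH350.SumReg

open Polynomial Finset Pool.Agent.TH350.WZ Pool.Agent.TH350.AddF Pool.Agent.H332R2

variable {p : ℕ} [hp : Fact p.Prime]

lemma inv_fact_ok {n : ℕ} (hn : n < p) :
    ((((n.factorial : ℕ) : ℚ)⁻¹).den : ZMod p) ≠ 0 ∧
      ((((n.factorial : ℕ) : ℚ)⁻¹ : ℚ) : ZMod p) = ((n.factorial : ℕ) : ZMod p)⁻¹ := by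
  have h := fact_ne_zero (p := p) hn
  have h1 : (((n.factorial : ℕ) : ℚ)⁻¹).den = n.factorial :=
    Rat.inv_natCast_den_of_pos (Nat.factorial_pos n)
  refine ⟨by rw [h1]; exact h, ?_⟩
  have h2 : (((n.factorial : ℕ) : ℚ)⁻¹).num = 1 := Rat.inv_natCast_num_of_pos (Nat.factorial_pos n)
  rw [Rat.cast_def, h1, h2]
  simp

lemma yy_ok {m : ℕ} (hm : 2 * m + 3 ≤ p) :
    ((yy (2 * m)).den : ZMod p) ≠ 0 ∧ ((yy (2 * m) : ℚ) : ZMod p) = cc p (2 * m) := by
  have h1 := bern_den_ne (p := p) (k := 2 * m) (by omega) (by omega)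
  have h2 := inv_fact_ok (p := p) (n := 2 * m) (by omega)
  rw [yy_even]
  refine ⟨den_mul_ne h1 h2.1, ?_⟩
  rw [Rat.cast_mul_of_ne_zero h1 h2.1, h2.2]
  rfl

lemma int_ok (n : ℤ) : (((n : ℚ)).den : ZMod p) ≠ 0 ∧ (((n : ℚ)) : ZMod p) = (n : ZMod p) := by
  refine ⟨by rw [Rat.den_intCast]; simp, by simp⟩

/-- weights -/
noncomputable def ww (p : ℕ) [Fact p.Prime] (k i : ℕ) : ZMod p := cc p (2 * i) * cc p (2 * (k - i))

theorem identity_mod (k t : ℕ) (hk : 2 ≤ k) (hkp : 2 * k + 3 ≤ p) (ht : 1 ≤ t) :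
    ∑ i ∈ range (k + 1), ww p k i *
      (((t : ZMod p) + 1) ^ (2 * i) * ((t : ZMod p) ^ (2 * (k - i)) + t)
        - ((t : ZMod p) + 1) * (t : ZMod p) ^ (2 * i)) = 0 := by
  have h := identity_rat k t hk ht
  set c : ℕ → ℤ := fun i => ((t : ℤ) + 1) ^ (2 * i) * ((t : ℤ) ^ (2 * (k - i)) + t)
    - ((t : ℤ) + 1) * (t : ℤ) ^ (2 * i) with hc
  have h' : ∑ i ∈ range (k + 1), yy (2 * i) * yy (2 * (k - i)) * ((c i : ℤ) : ℚ) = 0 := by
    rw [← h]
    refine Finset.sum_congr rfl (fun i _ => ?_)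
    rw [hc]
    push_cast
    ring
  have hok : ∀ i ∈ range (k + 1), ((yy (2 * i) * yy (2 * (k - i)) * ((c i : ℤ) : ℚ)).den : ZMod p) ≠ 0 := by
    intro i hi
    rw [Finset.mem_range] at hi
    exact den_mul_ne (den_mul_ne (yy_ok (by omega)).1 (yy_ok (by omega)).1) (int_ok _).1
  have h2 := (cast_sum_ok (F := ZMod p) (range (k + 1)) _ hok).2
  rw [h', Rat.cast_zero] at h2
  rw [h2]
  refine Finset.sum_congr rfl (fun i hi => ?_)
  rw [Finset.mem_range] at hi
  have a1 := yy_ok (p := p) (m := i) (by omega)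
  have a2 := yy_ok (p := p) (m := k - i) (by omega)
  have a3 := int_ok (p := p) (c i)
  rw [Rat.cast_mul_of_ne_zero (den_mul_ne a1.1 a2.1) a3.1, Rat.cast_mul_of_ne_zero a1.1 a2.1,
    a1.2, a2.2, a3.2, hc]
  unfold ww
  push_cast
  ring

theorem identity_poly (k : ℕ) (hk : 2 ≤ k) (hkp : 2 * k + 3 ≤ p) :
    ∑ i ∈ range (k + 1), C (ww p k i) *
      (((X : (ZMod p)[X]) + 1) ^ (2 * i) * (X ^ (2 * (k - i)) + X) - (X + 1) * X ^ (2 * i)) = 0 := by
  apply Polynomial.eq_zero_of_natDegree_lt_card_of_eval_eq_zero (f := fun x : ZMod p => x)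
    (hf := fun _ _ h => h)
  · intro x
    obtain ⟨t, ht, hx⟩ : ∃ t : ℕ, 1 ≤ t ∧ (t : ZMod p) = x := by
      refine ⟨x.val + p, ?_, ?_⟩
      · have := hp.out.pos; omega
      · push_cast
        simp
    have h := identity_mod k t hk hkp ht
    rw [hx] at h
    rw [← h, eval_finsetSum]
    refine Finset.sum_congr rfl (fun i _ => ?_)
    simp
  · rw [ZMod.card]
    have : natDegree (∑ i ∈ range (k + 1), C (ww p k i) *
      (((X : (ZMod p)[X]) + 1) ^ (2 * i) * (X ^ (2 * (k - i)) + X) - (X + 1) * X ^ (2 * i))) ≤ 2 * k + 1 := by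
      refine natDegree_sum_le_of_forall_le _ _ (fun i hi => ?_)
      rw [Finset.mem_range] at hi
      refine (natDegree_C_mul_le _ _).trans ?_
      have hX1 : ∀ n : ℕ, (((X : (ZMod p)[X]) + 1) ^ n).natDegree ≤ n := by
        intro n
        refine natDegree_pow_le.trans ?_
        have : (X + 1 : (ZMod p)[X]).natDegree ≤ 1 := by compute_degree
        nlinarith
      have d1 : (X ^ (2 * (k - i)) + X : (ZMod p)[X]).natDegree ≤ max (2 * (k - i)) 1 :=
        (natDegree_add_le _ _).trans (max_le_max (natDegree_X_pow_le _) natDegree_X_le)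
      have d2 := natDegree_mul_le (p := ((X : (ZMod p)[X]) + 1) ^ (2 * i)) (q := X ^ (2 * (k - i)) + X)
      have d3 := hX1 (2 * i)
      have d4 := natDegree_mul_le (p := ((X : (ZMod p)[X]) + 1)) (q := X ^ (2 * i))
      have d5 : (X + 1 : (ZMod p)[X]).natDegree ≤ 1 := by compute_degree
      have d6 := natDegree_X_pow_le (R := ZMod p) (2 * i)
      refine (natDegree_sub_le _ _).trans (max_le ?_ ?_)
      · rcases Nat.eq_zero_or_pos (k - i) with h | h
        · rw [h] at d1 d2 ⊢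
          simp only [Nat.mul_zero] at d1 d2 ⊢
          omega
        · have : max (2 * (k - i)) 1 = 2 * (k - i) := by omega
          omega
      · omega
    omega

theorem main (k : ℕ) (hk : 2 ≤ k) (hkp : 2 * k + 3 ≤ p) (hreg : ¬ (p : ℤ) ∣ (_root_.bernoulli (2 * k)).num)
    (I : Finset ℕ) (hI : ∀ i, 0 < i → i < k → ¬ (p : ℤ) ∣ (_root_.bernoulli (2 * i)).num →
      ¬ (p : ℤ) ∣ (_root_.bernoulli (2 * (k - i))).num → i ∈ I) (hIk : ∀ i ∈ I, 0 < i ∧ i < k) :
    4 * k ≤ 9 * (I.card * (I.card + 1)) := by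
  classical
  have hid := identity_poly (p := p) k hk hkp
  have hccb : ∀ m, 2 * m + 3 ≤ p → (cc p (2 * m) = 0 ↔ (p : ℤ) ∣ (_root_.bernoulli (2 * m)).num) :=
    fun m hm => cc_eq_zero_iff (by omega) (by omega)
  have hw0 : ww p k 0 = cc p (2 * k) := by
    unfold ww; simp [cc_zero]
  have hwk : ww p k k = cc p (2 * k) := by
    unfold ww; simp [cc_zero]
  have hck : cc p (2 * k) ≠ 0 := by
    intro h; exact hreg ((hccb k hkp).1 h)
  set w0 := cc p (2 * k) with hw0d
  -- split off the end terms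
  have hsplit : (0 : (ZMod p)[X]) = C w0 * ((X + 1) ^ (2 * k + 1) - X ^ (2 * k + 1) - 1) +
      ∑ i ∈ I, C (ww p k i) *
        (((X : (ZMod p)[X]) + 1) ^ (2 * i) * (X ^ (2 * (k - i)) + X) - (X + 1) * X ^ (2 * i)) := by
    rw [Finset.sum_range_succ, ← Finset.sum_range_add_sum_Ico _ (show 1 ≤ k by omega)] at hid
    rw [Finset.sum_range_one, hw0, hwk] at hid
    have hIco : ∑ i ∈ Finset.Ico 1 k, C (ww p k i) *
        (((X : (ZMod p)[X]) + 1) ^ (2 * i) * (X ^ (2 * (k - i)) + X) - (X + 1) * X ^ (2 * i)) =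
        ∑ i ∈ I, C (ww p k i) *
        (((X : (ZMod p)[X]) + 1) ^ (2 * i) * (X ^ (2 * (k - i)) + X) - (X + 1) * X ^ (2 * i)) := by
      refine (Finset.sum_subset ?_ ?_).symm
      · intro i hi
        have := hIk i hi
        rw [Finset.mem_Ico]; omega
      · intro i hi hiI
        rw [Finset.mem_Ico] at hi
        have hz : ww p k i = 0 := by
          by_contra hne
          apply hiI
          unfold ww at hne
          refine hI i (by omega) (by omega) ?_ ?_
          · intro h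
            exact left_ne_zero_of_mul hne ((hccb i (by omega)).2 h)
          · intro h
            exact right_ne_zero_of_mul hne ((hccb (k - i) (by omega)).2 h)
        rw [hz, C_0, zero_mul]
    rw [hIco] at hid
    rw [← hid]
    simp only [Nat.mul_zero, pow_zero, Nat.sub_zero, one_mul, mul_one, Nat.sub_self]
    ring
  set f : (ZMod p)[X] := C w0 * (X + 1) ^ (2 * k + 1) with hf
  set S : Finset (ℕ × ℕ) := {(0, 0), (2 * k + 1, 0)} ∪ (I.image (fun i => (2 * i, 1)) ∪
    (I.image (fun i => (1, 2 * i)) ∪ I.image (fun i => (2 * (k - i), 2 * i)))) with hS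
  have hcard : S.card ≤ 3 * I.card + 2 := by
    have e1 := Finset.card_union_le ({(0, 0), (2 * k + 1, 0)} : Finset (ℕ × ℕ))
      (I.image (fun i => (2 * i, 1)) ∪ (I.image (fun i => (1, 2 * i)) ∪
        I.image (fun i => (2 * (k - i), 2 * i))))
    have e2 := Finset.card_union_le (I.image (fun i => (2 * i, 1))) (I.image (fun i => (1, 2 * i)) ∪
        I.image (fun i => (2 * (k - i), 2 * i)))
    have e3 := Finset.card_union_le (I.image (fun i => (1, 2 * i)))
      (I.image (fun i => (2 * (k - i), 2 * i)))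
    have e4 := Finset.card_image_le (s := I) (f := fun i => (2 * i, 1))
    have e5 := Finset.card_image_le (s := I) (f := fun i => (1, 2 * i))
    have e6 := Finset.card_image_le (s := I) (f := fun i => (2 * (k - i), 2 * i))
    have e7 : ({(0, 0), (2 * k + 1, 0)} : Finset (ℕ × ℕ)).card ≤ 2 := Finset.card_le_two
    rw [hS]
    omega
  have hmem : ∀ s ∈ S, (ph s : (ZMod p)[X]) ∈ Submodule.span (ZMod p) (ph '' (S : Set (ℕ × ℕ))) :=
    fun s hs => Submodule.subset_span (Set.mem_image_of_mem _ hs)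
  have hz := zest (F := ZMod p) p S ?_ ?_ f (2 * k + 1) ?_ ?_ ?_
  · have h2 := Nat.mul_le_mul hcard (Nat.sub_le_sub_right hcard 1)
    have h3 : 3 * I.card + 2 - 1 = 3 * I.card + 1 := by omega
    rw [h3] at h2
    nlinarith
  · intro s hs
    rw [hS, Finset.mem_union, Finset.mem_union, Finset.mem_union, Finset.mem_insert,
      Finset.mem_singleton, Finset.mem_image, Finset.mem_image, Finset.mem_image] at hs
    rcases hs with (rfl | rfl) | ⟨i, hi, rfl⟩ | ⟨i, hi, rfl⟩ | ⟨i, hi, rfl⟩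
    · simp only; omega
    · simp only; omega
    all_goals
      have := hIk i hi
      simp only
      omega
  · intro s hs
    rw [hS, Finset.mem_union, Finset.mem_union, Finset.mem_union, Finset.mem_insert,
      Finset.mem_singleton, Finset.mem_image, Finset.mem_image, Finset.mem_image] at hs
    rcases hs with (rfl | rfl) | ⟨i, hi, rfl⟩ | ⟨i, hi, rfl⟩ | ⟨i, hi, rfl⟩
    · simp
    · simp
    all_goals
      have := hIk i hi
      simp only
      omega
  · have hfe : f = C w0 * ph (2 * k + 1, 0) + C w0 * ph (0, 0) +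
        (∑ i ∈ I, C (ww p k i) * ph (2 * i, 1) - ∑ i ∈ I, C (ww p k i) * ph (1, 2 * i)
        - ∑ i ∈ I, C (ww p k i) * ph (2 * (k - i), 2 * i)) := by
      have : ∑ i ∈ I, C (ww p k i) * ph (2 * i, 1) - ∑ i ∈ I, C (ww p k i) * ph (1, 2 * i)
        - ∑ i ∈ I, C (ww p k i) * ph (2 * (k - i), 2 * i) = - ∑ i ∈ I, C (ww p k i) *
        (((X : (ZMod p)[X]) + 1) ^ (2 * i) * (X ^ (2 * (k - i)) + X) - (X + 1) * X ^ (2 * i)) := by
        rw [← Finset.sum_sub_distrib, ← Finset.sum_sub_distrib, ← Finset.sum_neg_distrib]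
        refine Finset.sum_congr rfl (fun i _ => ?_)
        unfold ph
        simp only
        ring
      rw [this, hf]
      unfold ph
      simp only [pow_zero, mul_one]
      linear_combination -hsplit
    rw [hfe]
    simp only [← Polynomial.smul_eq_C_mul]
    refine Submodule.add_mem _ (Submodule.add_mem _ (Submodule.smul_mem _ _ (hmem _ ?_))
      (Submodule.smul_mem _ _ (hmem _ ?_))) (Submodule.sub_mem _ (Submodule.sub_mem _
      (Submodule.sum_mem _ (fun i hi => Submodule.smul_mem _ _ (hmem _ ?_)))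
      (Submodule.sum_mem _ (fun i hi => Submodule.smul_mem _ _ (hmem _ ?_))))
      (Submodule.sum_mem _ (fun i hi => Submodule.smul_mem _ _ (hmem _ ?_))))
    · rw [hS]; simp
    · rw [hS]; simp
    · rw [hS, Finset.mem_union, Finset.mem_union]
      exact Or.inr (Or.inl (Finset.mem_image_of_mem (fun i => (2 * i, 1)) hi))
    · rw [hS, Finset.mem_union, Finset.mem_union, Finset.mem_union]
      exact Or.inr (Or.inr (Or.inl (Finset.mem_image_of_mem (fun i => (1, 2 * i)) hi)))
    · rw [hS, Finset.mem_union, Finset.mem_union, Finset.mem_union]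
      exact Or.inr (Or.inr (Or.inr (Finset.mem_image_of_mem (fun i => (2 * (k - i), 2 * i)) hi)))
  · rw [hf]
    exact Dvd.intro_left _ rfl
  · rw [hf, coeff_zero_eq_eval_zero]
    simp
    exact hck

end Pool.Agent.TH350.SumReg
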