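import Pool.Agent.TH350.RC.ZE
import Pool.Agent.H582R5.RP.C
import Pool.Agent.H582R5.RP.Core2

/-!
# Many Bernoulli numbers not divisible by `p` in every residue class of indices
-/

set_option autoImplicit false

namespace Pool.Agent.TH350.RC

open Finset Pool.Agent.H582R5.RP

theorem ze_finset {F : Type*} [Field F] (Λ : Finset F) (T : Finset ℕ)
    (hT : ∀ i ∈ T, ∀ j ∈ T, (i : F) = (j : F) → i = j) (M : ℕ)
    (hM : ∀ k : ℕ, 0 < k → k < M → (k : F) ≠ 0) (c : F → ℕ → F)
    (hrel : ∀ k < M, ∑ l ∈ Λ, ∑ i ∈ T, c l i * SQ i l k = 0) (l0 : F) (hl0 : l0 ∈ Λ) (i0 : ℕ)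
    (hi0 : i0 ∈ T) (hc : c l0 i0 ≠ 0) :
    2 * M ≤ 2 * i0 + Λ.card * (Λ.card - 1) * T.card ^ 2 := by
  classical
  have h := zero_estimate (F := F) (L := Λ.card) (n := T.card)
    (fun l => ((Λ.equivFin.symm l : Λ) : F)) (fun i => ((T.equivFin.symm i : T) : ℕ))
    (fun a b hab => Λ.equivFin.symm.injective (Subtype.ext hab))
    (fun a b hab => T.equivFin.symm.injective (Subtype.ext
      (hT _ (T.equivFin.symm a).2 _ (T.equivFin.symm b).2 hab)))
    M hM (fun l i => c (Λ.equivFin.symm l : Λ) (T.equivFin.symm i : T))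
    (by
      intro k hk
      rw [← hrel k hk]
      have e1 : ∀ l : F, ∑ i : Fin T.card, c l ((T.equivFin.symm i : T) : ℕ) *
          SQ ((T.equivFin.symm i : T) : ℕ) l k = ∑ i ∈ T, c l i * SQ i l k := by
        intro l
        rw [Equiv.sum_comp T.equivFin.symm (fun i : T => c l (i : ℕ) * SQ (i : ℕ) l k)]
        exact Finset.sum_coe_sort T (fun i => c l i * SQ i l k)
      simp only [e1]
      rw [Equiv.sum_comp Λ.equivFin.symm (fun l : Λ => ∑ i ∈ T, c (l : F) i * SQ i (l : F) k)]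
      exact Finset.sum_coe_sort Λ (fun l => ∑ i ∈ T, c l i * SQ i l k))
    (Λ.equivFin ⟨l0, hl0⟩) (T.equivFin ⟨i0, hi0⟩) (by simpa using hc)
  simpa using h

theorem ze_family {F : Type*} [Field F] {ι : Type*} (P : Finset ι) (lam : ι → F) (T : Finset ℕ)
    (hT : ∀ i ∈ T, ∀ j ∈ T, (i : F) = (j : F) → i = j) (M : ℕ)
    (hM : ∀ k : ℕ, 0 < k → k < M → (k : F) ≠ 0) (b : ι → ℕ → F)
    (hrel : ∀ k < M, ∑ J ∈ P, ∑ i ∈ T, b J i * SQ i (lam J) k = 0) (J0 : ι) (hJ0 : J0 ∈ P)
    (hJ : ∀ J ∈ P, lam J = lam J0 → J = J0) (i0 : ℕ) (hi0 : i0 ∈ T) (hb : b J0 i0 ≠ 0) :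
    2 * M ≤ 2 * i0 + P.card * (P.card - 1) * T.card ^ 2 := by
  classical
  have h := ze_finset (P.image lam) T hT M hM
    (fun l i => ∑ J ∈ P.filter (fun J => lam J = l), b J i)
    (by
      intro k hk
      rw [← hrel k hk, ← Finset.sum_fiberwise_of_maps_to (s := P) (t := P.image lam) (g := lam)
        (fun J hJ => Finset.mem_image_of_mem _ hJ)]
      refine Finset.sum_congr rfl (fun l _ => ?_)
      simp only [Finset.sum_mul]
      rw [Finset.sum_comm]
      refine Finset.sum_congr rfl (fun J hJ => ?_)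
      rw [(Finset.mem_filter.1 hJ).2])
    (lam J0) (Finset.mem_image_of_mem _ hJ0) i0 hi0
    (by
      have e : P.filter (fun J => lam J = lam J0) = {J0} := by
        ext J
        rw [Finset.mem_filter, Finset.mem_singleton]
        constructor
        · rintro ⟨h1, h2⟩; exact hJ J h1 h2
        · rintro rfl; exact ⟨hJ0, rfl⟩
      simp only [e, Finset.sum_singleton]
      exact hb)
  refine h.trans ?_
  have hc : (P.image lam).card ≤ P.card := Finset.card_image_le
  have := Nat.mul_le_mul_right (T.card ^ 2) (Nat.mul_le_mul hc (Nat.sub_le_sub_right hc 1))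
  omega

theorem core' (p : ℕ) [Fact p.Prime] (F : Type) [Field F] [CharP F p]
    (eta : F) (d r K : ℕ) (hd : 1 ≤ d) (hK : 1 ≤ K) (hN : 2 * K + 3 ≤ p)
    (h1 : eta ^ d = -1)
    (h2 : ∀ k : ℕ, ∑ j ∈ range d, eta ^ (2 * k * j) = if d ∣ k then (d : F) else 0)
    (h3 : ∀ J : Finset ℕ, J ⊆ range d → J.Nonempty → ∑ j ∈ J, eta ^ j ≠ 0)
    (S : Finset ℕ) (hSK : ∀ m ∈ S, m ≤ K)
    (hirr : ∀ m : ℕ, 1 ≤ m → m ≤ K → d ∣ m + r → m ∉ S → (p : ℤ) ∣ (bernoulli (2 * m)).num) :
    2 * (2 * K + 2) ≤ 2 * 1 + 2 ^ d * (2 ^ d - 1) * (S.card + 2) ^ 2 := by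
  classical
  let _ : Algebra (ZMod p) F := ZMod.algebra F p
  set N := 2 * K + 2 with hNdef
  set D := 2 * K with hDdef
  have hodd : ∀ m : ℕ, 1 ≤ m → PowerSeries.coeff (2 * m + 1) (gg (K := F) p eta d r) = 0 := by
    intro m hm
    rw [coeff_gg]
    have hb : bernoulli (2 * m + 1) = 0 := bernoulli_eq_zero_of_odd ⟨m, rfl⟩ (by omega)
    unfold Pool.Agent.H332R2.cc
    rw [hb]
    simp
  have heven : ∀ m : ℕ, 1 ≤ m → m ≤ K → m ∉ S →
      PowerSeries.coeff (2 * m) (gg (K := F) p eta d r) = 0 := by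
    intro m hm1 hm2 hm3
    rw [coeff_gg]
    have e : ∑ j ∈ range d, eta ^ ((2 * r + 2 * m) * j) = if d ∣ r + m then (d : F) else 0 := by
      rw [← h2 (r + m)]
      refine Finset.sum_congr rfl (fun j _ => ?_)
      congr 1; ring
    rw [e]
    split_ifs with hdv
    · have hz : Pool.Agent.H332R2.cc p (2 * m) = 0 := by
        rw [Pool.Agent.H332R2.cc_eq_zero_iff]
        · exact hirr m hm1 hm2 (by rwa [add_comm]) hm3
        · omega
        · omega
      rw [hz, map_zero, mul_zero]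
    · rw [zero_mul]
  have hvan : ∀ n, D < n → n < N → PowerSeries.coeff n (gg (K := F) p eta d r) = 0 := by
    intro n hn1 hn2
    have : n = 2 * K + 1 := by omega
    rw [this]
    exact hodd K hK
  have hZ := qm_ZZ (K := F) p N (by omega) eta d r D hvan
  rw [← map_zero (qm F N), qm_eq_iff] at hZ
  set T : Finset ℕ := insert 0 (insert 1 (S.image (fun m => 2 * m))) with hT
  have hTcard : T.card ≤ S.card + 2 := by
    have e1 := Finset.card_insert_le 0 (insert 1 (S.image (fun m => 2 * m)))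
    have e2 := Finset.card_insert_le 1 (S.image (fun m => 2 * m))
    have e3 := Finset.card_image_le (s := S) (f := fun m => 2 * m)
    rw [hT]
    omega
  have hTD : T ⊆ range (D + 1) := by
    intro i hi
    rw [hT, Finset.mem_insert, Finset.mem_insert, Finset.mem_image] at hi
    rw [Finset.mem_range]
    rcases hi with rfl | rfl | ⟨m, hm, rfl⟩
    · omega
    · omega
    · have := hSK m hm
      omega
  have hsum : ∀ (g : ℕ → F), ∑ i ∈ range (D + 1), PowerSeries.coeff i (gg (K := F) p eta d r) * g i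
      = ∑ i ∈ T, PowerSeries.coeff i (gg (K := F) p eta d r) * g i := by
    intro g
    refine (Finset.sum_subset hTD (fun i hi hi' => ?_)).symm
    rw [hT, Finset.mem_insert, Finset.mem_insert, Finset.mem_image, not_or, not_or] at hi'
    rw [Finset.mem_range] at hi
    have hz : PowerSeries.coeff i (gg (K := F) p eta d r) = 0 := by
      rcases Nat.even_or_odd' i with ⟨m, hm | hm⟩
      · subst hm
        refine heven m (by omega) (by omega) (fun hmS => hi'.2.2 ⟨m, hmS, rfl⟩)
      · subst hm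
        exact hodd m (by omega)
    rw [hz, zero_mul]
  set b : Finset ℕ → ℕ → F := fun J i => (-1) ^ (range d \ J).card *
    PowerSeries.coeff i (gg (K := F) p eta d r) - (if i = 1 then ∑ j ∈ range d \ J,
      (eta ^ (2 * r * j) * eta ^ j) * (-1) ^ ((range d).erase j \ J).card else 0) with hb
  have h1T : 1 ∈ T := by rw [hT]; simp
  have hrel : ∀ n < N, ∑ J ∈ (range d).powerset, ∑ i ∈ T, b J i * SQ i (lam eta J) n = 0 := by
    intro n hn
    have hnp : n < p := by omega
    have hz := hZ n hn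
    rw [map_zero] at hz
    have hfz : (n.factorial : F) * PowerSeries.coeff n (ZZ p eta d r D) = 0 := by rw [hz, mul_zero]
    rw [ZZ, map_sub, mul_sub] at hfz
    have e1 : (n.factorial : F) * PowerSeries.coeff n ((∑ J ∈ (range d).powerset,
        (-1) ^ (range d \ J).card * ee (lam eta J)) * gt p eta d r D) =
        ∑ J ∈ (range d).powerset, (-1 : F) ^ (range d \ J).card *
          ∑ i ∈ T, PowerSeries.coeff i (gg p eta d r) * SS i (lam eta J) n := by
      rw [Finset.sum_mul, map_sum, Finset.mul_sum]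
      refine Finset.sum_congr rfl (fun J _ => ?_)
      rw [← hsum (fun i => SS i (lam eta J) n), ← fact_coeff_main p eta d r D n hnp]
      have : ((-1 : PowerSeries F) ^ (range d \ J).card) =
          PowerSeries.C ((-1 : F) ^ (range d \ J).card) := by
        simp
      rw [this, mul_assoc (PowerSeries.C _), PowerSeries.coeff_C_mul]
      ring
    have e2 : (n.factorial : F) * PowerSeries.coeff n (∑ j ∈ range d,
        PowerSeries.C (eta ^ (2 * r * j) * eta ^ j) * PowerSeries.X *
          ∑ J ∈ ((range d).erase j).powerset, (-1) ^ ((range d).erase j \ J).card *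
            ee (lam eta J)) =
        ∑ j ∈ range d, ∑ J ∈ ((range d).erase j).powerset, (eta ^ (2 * r * j) * eta ^ j) *
          (-1 : F) ^ ((range d).erase j \ J).card * SS 1 (lam eta J) n := by
      rw [map_sum, Finset.mul_sum]
      refine Finset.sum_congr rfl (fun j _ => ?_)
      rw [mul_assoc, PowerSeries.coeff_C_mul, Finset.mul_sum, map_sum, mul_left_comm,
        Finset.mul_sum, Finset.mul_sum]
      refine Finset.sum_congr rfl (fun J _ => ?_)
      rw [← coeff_ee_X p (lam eta J) 1 n hnp]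
      have e5 : (PowerSeries.X : PowerSeries F) * ((-1) ^ ((range d).erase j \ J).card *
          ee (lam eta J)) = PowerSeries.C ((-1 : F) ^ ((range d).erase j \ J).card) *
          (ee (lam eta J) * PowerSeries.X ^ 1) := by
        simp only [map_pow, map_neg, map_one, pow_one]
        ring
      rw [e5, PowerSeries.coeff_C_mul]
      ring
    rw [e1, e2] at hfz
    rw [Finset.sum_comm' (s := range d) (t := fun j => ((range d).erase j).powerset)
      (t' := (range d).powerset) (s' := fun J => range d \ J)] at hfz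
    · rw [← hfz, ← Finset.sum_sub_distrib]
      refine Finset.sum_congr rfl (fun J _ => ?_)
      have e3 : ∀ i, b J i * SQ i (lam eta J) n = (-1) ^ (range d \ J).card *
          (PowerSeries.coeff i (gg (K := F) p eta d r) * SS i (lam eta J) n) -
          (if i = 1 then (∑ j ∈ range d \ J, (eta ^ (2 * r * j) * eta ^ j) *
            (-1) ^ ((range d).erase j \ J).card) * SS 1 (lam eta J) n else 0) := by
        intro i
        rw [hb]
        simp only
        split_ifs with hi
        · subst hi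
          change _ * SS 1 (lam eta J) n = _
          ring
        · change _ * SS i (lam eta J) n = _
          ring
      rw [Finset.sum_congr rfl (fun i _ => e3 i), Finset.sum_sub_distrib, ← Finset.mul_sum,
        Finset.sum_ite_eq' T 1, if_pos h1T, Finset.sum_mul]
    · intro j J
      rw [Finset.mem_powerset, Finset.mem_powerset, Finset.mem_sdiff, Finset.subset_erase]
      tauto
  have hcast : ∀ k : ℕ, 0 < k → k < N → (k : F) ≠ 0 := by
    intro k hk1 hk2 h0
    rw [CharP.cast_eq_zero_iff F p] at h0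
    have := Nat.le_of_dvd hk1 h0
    omega
  have hTinj : ∀ i ∈ T, ∀ j ∈ T, (i : F) = (j : F) → i = j := by
    intro i hi j hj hij
    have hi' := Finset.mem_range.1 (hTD hi)
    have hj' := Finset.mem_range.1 (hTD hj)
    rw [CharP.cast_eq_iff_mod_eq F p] at hij
    rwa [Nat.mod_eq_of_lt (by omega), Nat.mod_eq_of_lt (by omega)] at hij
  have hb0 : b ∅ 1 ≠ 0 := by
    intro h0
    rw [hb] at h0
    simp only [Finset.sdiff_empty, Finset.card_range, if_true] at h0
    have e4 : ∑ j ∈ range d, (eta ^ (2 * r * j) * eta ^ j) * (-1 : F) ^ ((range d).erase j).card =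
        (∑ j ∈ range d, eta ^ (2 * r * j) * eta ^ j) * (-1) ^ (d - 1) := by
      rw [Finset.sum_mul]
      refine Finset.sum_congr rfl (fun j hj => ?_)
      rw [Finset.card_erase_of_mem hj, Finset.card_range]
    rw [e4, coeff_gg, cc_one p (by omega)] at h0
    set S' : F := ∑ j ∈ range d, eta ^ (2 * r * j) * eta ^ j with hS'
    have hS'' : ∑ j ∈ range d, eta ^ ((2 * r + 1) * j) = S' := by
      rw [hS']
      refine Finset.sum_congr rfl (fun j _ => ?_)
      rw [← pow_add]; congr 1; ring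
    rw [hS'', map_neg, map_inv₀, map_ofNat] at h0
    have h20 : (2 : F) ≠ 0 := by
      have := hcast 2 (by norm_num) (by omega)
      exact_mod_cast this
    have hgeom : S' * (eta ^ (2 * r + 1) - 1) = -2 := by
      have hg := geom_sum_mul (eta ^ (2 * r + 1)) d
      have : ∑ j ∈ range d, (eta ^ (2 * r + 1)) ^ j = S' := by
        rw [← hS'']
        refine Finset.sum_congr rfl (fun j _ => ?_)
        rw [← pow_mul]
      rw [this, ← pow_mul, mul_comm (2 * r + 1) d, pow_mul, h1] at hg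
      rw [hg, Odd.neg_one_pow ⟨r, rfl⟩]
      norm_num
    have hS0 : S' ≠ 0 := by
      intro h
      rw [h, zero_mul] at hgeom
      exact h20 (by linear_combination hgeom)
    obtain ⟨e, he⟩ : ∃ e, d = e + 1 := ⟨d - 1, by omega⟩
    rw [he, Nat.add_sub_cancel, pow_succ] at h0
    have hm : ((-1 : F) ^ e) ≠ 0 := pow_ne_zero _ (by norm_num)
    have hfinal : (-1 : F) ^ e * (S' * 2⁻¹) = 0 := by
      have h22 : (2 : F) * 2⁻¹ = 1 := mul_inv_cancel₀ h20
      linear_combination (-1 : F) * h0 + ((-1 : F) ^ e * S') * h22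
    rcases mul_eq_zero.mp hfinal with h | h
    · exact hm h
    · rcases mul_eq_zero.mp h with h | h
      · exact hS0 h
      · exact inv_ne_zero h20 h
  have hfin := ze_family (range d).powerset (lam eta) T hTinj N hcast b hrel ∅ (by simp)
    (by
      intro J hJ hJ0
      rw [lam_empty] at hJ0
      by_contra hne
      exact h3 J (Finset.mem_powerset.1 hJ) (Finset.nonempty_iff_ne_empty.mpr hne) hJ0)
    1 h1T hb0
  rw [Finset.card_powerset, Finset.card_range] at hfin
  refine hfin.trans ?_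
  have := Nat.mul_le_mul_left (2 ^ d * (2 ^ d - 1)) (Nat.pow_le_pow_left hTcard 2)
  omega

/-- The number of regular indices in a residue class. -/
theorem main (p d : ℕ) (hp : p.Prime) (hd : 1 ≤ d) (hpd : d ^ Nat.totient (2 * d) < p)
    (c : ℤ) (K : ℕ) (hK : 2 * K + 3 ≤ p) :
    K < 4 ^ (d - 1) * (((Icc 1 K).filter (fun m : ℕ => (m : ℤ) ≡ c [ZMOD d] ∧
      ¬ ((p : ℤ) ∣ (bernoulli (2 * m)).num))).card + 2) ^ 2 := by
  have : Fact p.Prime := ⟨hp⟩
  obtain ⟨F, _, _, eta, h1, h2, h3⟩ := Pool.Agent.H582R5.RP.c p d hp hd hpd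
  rcases Nat.eq_zero_or_pos K with hK0 | hK0
  · subst hK0
    positivity
  have hd0 : (d : ℤ) ≠ 0 := by exact_mod_cast (by omega : d ≠ 0)
  set r : ℕ := ((-c) % (d : ℤ)).toNat with hr
  have hrZ : (r : ℤ) = (-c) % (d : ℤ) := Int.toNat_of_nonneg (Int.emod_nonneg _ hd0)
  have key := core' p F eta d r K hd hK0 hK h1 h2 h3
    ((Icc 1 K).filter (fun m : ℕ => (m : ℤ) ≡ c [ZMOD d] ∧ ¬ ((p : ℤ) ∣ (bernoulli (2 * m)).num)))
    (fun m hm => (Finset.mem_Icc.1 (Finset.mem_filter.1 hm).1).2)
    (by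
      intro m hm1 hm2 hm3 hm4
      by_contra hcon
      refine hm4 (Finset.mem_filter.2 ⟨Finset.mem_Icc.2 ⟨hm1, hm2⟩, ?_, hcon⟩)
      have h4 : (d : ℤ) ∣ (m : ℤ) + (-c) % (d : ℤ) := by
        rw [← hrZ]; exact_mod_cast hm3
      have h5 : (d : ℤ) ∣ (-c) - (-c) % (d : ℤ) := Int.dvd_self_sub_emod
      have h6 : (d : ℤ) ∣ (m : ℤ) - c := by
        have := dvd_add h4 h5
        have e : (m : ℤ) + (-c) % (d : ℤ) + ((-c) - (-c) % (d : ℤ)) = m - c := by ring
        rwa [e] at this
      exact (Int.modEq_iff_dvd.mpr (by rwa [← dvd_neg, neg_sub] : (d : ℤ) ∣ c - m)))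
  set s := ((Icc 1 K).filter (fun m : ℕ => (m : ℤ) ≡ c [ZMOD d] ∧
    ¬ ((p : ℤ) ∣ (bernoulli (2 * m)).num))).card with hs
  obtain ⟨e, he⟩ : ∃ e, d = e + 1 := ⟨d - 1, by omega⟩
  rw [he, Nat.add_sub_cancel]
  rw [he] at key
  have h7 : 2 ^ (e + 1) * (2 ^ (e + 1) - 1) ≤ 4 * 4 ^ e := by
    have : 4 * 4 ^ e = 2 ^ (e + 1) * 2 ^ (e + 1) := by
      rw [← mul_pow, pow_succ]; ring
    rw [this]
    exact Nat.mul_le_mul_left _ (Nat.sub_le _ _)
  have h8 := Nat.mul_le_mul_right ((s + 2) ^ 2) h7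
  have h9 : 4 * 4 ^ e * (s + 2) ^ 2 = 4 * (4 ^ e * (s + 2) ^ 2) := by ring
  omega

end Pool.Agent.TH350.RC
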