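import Mathlib

/-!
# A zero estimate for sparse exponential polynomials

Let `F` be a field, `Λ₀, …, Λ_{L-1}` distinct elements of `F` and `T₀, …, T_{n-1}` natural numbers
with distinct images in `F`.  If the exponential polynomial `f = ∑ c_{l,i} x ^ T_i exp (Λ_l x)`
vanishes to the order `M` at `0` (where `1, …, M - 1` are invertible in `F`) and `c_{l,i} ≠ 0`, then
`M ≤ T_i + L (L - 1) / 2 * n ^ 2`.
-/

set_option autoImplicit false

namespace Pool.Agent.TH350.RC

open Polynomial Finset Matrix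

variable {F : Type*} [Field F]

/-- `x ^ i (d/dx) ^ i (x ^ τ exp (lam x)) = x ^ τ exp (lam x) GP lam τ i` -/
noncomputable def GP (lam tau : F) : ℕ → F[X]
  | 0 => 1
  | i + 1 => (C (tau - i) + C lam * X) * GP lam tau i + X * derivative (GP lam tau i)

theorem GP_coeff (lam tau : F) (i k : ℕ) :
    (GP lam tau i).coeff k = (i.choose k : F) * lam ^ k * (descPochhammer F (i - k)).eval tau := by
  induction i generalizing k with
  | zero =>
    rw [GP, coeff_one]
    rcases Nat.eq_zero_or_pos k with rfl | hk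
    · simp
    · rw [if_neg (by omega), Nat.choose_eq_zero_of_lt hk]; simp
  | succ i ih =>
    rw [GP, add_mul, coeff_add, coeff_add, coeff_C_mul, mul_assoc, coeff_C_mul]
    rcases Nat.eq_zero_or_pos k with rfl | hk
    · rw [coeff_X_mul_zero, coeff_X_mul_zero, ih]
      simp only [Nat.choose_zero_right, Nat.cast_one, pow_zero, one_mul, mul_one, Nat.sub_zero,
        mul_zero, add_zero]
      rw [descPochhammer_succ_right, eval_mul, eval_sub, eval_X, eval_natCast]
      ring
    · obtain ⟨k, rfl⟩ : ∃ k', k = k' + 1 := ⟨k - 1, by omega⟩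
      rw [coeff_X_mul, coeff_X_mul, coeff_derivative, ih, ih]
      rcases Nat.lt_trichotomy k i with h | h | h
      · have e1 : i - k = (i - (k + 1)) + 1 := by omega
        have e2 : i + 1 - (k + 1) = (i - (k + 1)) + 1 := by omega
        have e3 : ((i - (k + 1) : ℕ) : F) = (i : F) - k - 1 := by
          have : i = (i - (k + 1)) + (k + 1) := by omega
          have h2 : ((i : ℕ) : F) = ((i - (k + 1) : ℕ) : F) + ((k : F) + 1) := by
            conv_lhs => rw [this]
            push_cast
            ring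
          rw [h2]; ring
        rw [e1, e2, descPochhammer_succ_right, eval_mul, eval_sub, eval_X, eval_natCast, e3,
          Nat.choose_succ_succ]
        push_cast
        ring
      · subst h
        rw [Nat.choose_succ_self, Nat.choose_self, Nat.sub_self, Nat.sub_self, Nat.choose_self]
        simp
        ring
      · rw [Nat.choose_eq_zero_of_lt (show i < k + 1 by omega), Nat.choose_eq_zero_of_lt h,
          Nat.choose_eq_zero_of_lt (show i + 1 < k + 1 by omega)]
        simp

/-- the operator `x ^ i (d/dx) ^ i` -/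
noncomputable def DD : ℕ → F[X] →ₗ[F] F[X]
  | 0 => LinearMap.id
  | i + 1 => (LinearMap.mulLeft F X ∘ₗ derivative - (i : F) • LinearMap.id) ∘ₗ DD i

theorem DD_succ (i : ℕ) (u : F[X]) :
    DD (i + 1) u = X * derivative (DD i u) - C (i : F) * DD i u := by
  simp [DD, smul_eq_C_mul]

theorem dvd_theta {M : ℕ} {u : F[X]} (h : X ^ M ∣ u) : X ^ M ∣ X * derivative u := by
  obtain ⟨w, rfl⟩ := h
  rw [derivative_mul, derivative_X_pow]
  rcases Nat.eq_zero_or_pos M with rfl | hM
  · simp
  · obtain ⟨m, rfl⟩ : ∃ m, M = m + 1 := ⟨M - 1, by omega⟩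
    refine ⟨C ((m + 1 : ℕ) : F) * w + X * derivative w, ?_⟩
    rw [Nat.add_sub_cancel]
    ring

theorem DD_dvd {M : ℕ} {u : F[X]} (h : X ^ M ∣ u) (i : ℕ) : X ^ M ∣ DD i u := by
  induction i with
  | zero => exact h
  | succ i ih =>
    rw [DD_succ]
    exact dvd_sub (dvd_theta ih) (Dvd.dvd.mul_left ih _)

/-- truncated exponential function -/
noncomputable def EE (lam : F) (M : ℕ) : F[X] :=
  ∑ k ∈ range M, C (lam ^ k * ((k.factorial : F))⁻¹) * X ^ k

theorem EE_coeff (lam : F) (M k : ℕ) :
    (EE lam M).coeff k = if k < M then lam ^ k * ((k.factorial : F))⁻¹ else 0 := by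
  unfold EE
  rw [finsetSum_coeff]
  simp only [coeff_C_mul, coeff_X_pow, mul_ite, mul_one, mul_zero]
  rw [Finset.sum_ite_eq (range M) k]
  simp only [Finset.mem_range]

theorem EE_theta (lam : F) (M : ℕ) (hM : ∀ k : ℕ, 0 < k → k < M → (k : F) ≠ 0) :
    X ^ M ∣ X * derivative (EE lam M) - C lam * X * EE lam M := by
  rw [X_pow_dvd_iff]
  intro k hk
  rw [coeff_sub, mul_assoc, coeff_C_mul]
  rcases Nat.eq_zero_or_pos k with rfl | hk0
  · simp
  · obtain ⟨k, rfl⟩ : ∃ k', k = k' + 1 := ⟨k - 1, by omega⟩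
    rw [coeff_X_mul, coeff_X_mul, coeff_derivative, EE_coeff, EE_coeff, if_pos hk,
      if_pos (by omega), Nat.factorial_succ]
    have h1 := hM (k + 1) (by omega) hk
    push_cast at h1 ⊢
    rw [mul_inv, pow_succ]
    have h2 : ((k : F) + 1)⁻¹ * ((k : F) + 1) = 1 := inv_mul_cancel₀ h1
    linear_combination lam ^ k * lam * ((k.factorial : F))⁻¹ * h2

theorem DD_mono (lam : F) (M : ℕ) (hM : ∀ k : ℕ, 0 < k → k < M → (k : F) ≠ 0) (tau i : ℕ) :
    X ^ M ∣ DD i (X ^ tau * EE lam M) - X ^ tau * EE lam M * GP lam (tau : F) i := by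
  induction i with
  | zero => simp [DD, GP]
  | succ i ih =>
    rw [DD_succ, GP]
    have h1 := dvd_theta ih
    have h2 := Dvd.dvd.mul_left ih (C (i : F))
    have h3 := Dvd.dvd.mul_left (EE_theta lam M hM) (X ^ tau * GP lam (tau : F) i)
    have h4 := dvd_add (dvd_sub h1 h2) h3
    have hX : X * derivative (X ^ tau : F[X]) = C (tau : F) * X ^ tau := by
      rw [derivative_X_pow]
      rcases Nat.eq_zero_or_pos tau with rfl | ht
      · simp
      · obtain ⟨t, rfl⟩ : ∃ t, tau = t + 1 := ⟨tau - 1, by omega⟩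
        rw [Nat.add_sub_cancel, pow_succ]
        ring
    have e : X * derivative ((DD i) (X ^ tau * EE lam M) - X ^ tau * EE lam M * GP lam (tau : F) i)
        - C (i : F) * ((DD i) (X ^ tau * EE lam M) - X ^ tau * EE lam M * GP lam (tau : F) i)
        + X ^ tau * GP lam (tau : F) i * (X * derivative (EE lam M) - C lam * X * EE lam M) =
        X * derivative ((DD i) (X ^ tau * EE lam M)) - C (i : F) * (DD i) (X ^ tau * EE lam M) -
        X ^ tau * EE lam M * ((C ((tau : F) - i) + C lam * X) * GP lam (tau : F) i +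
          X * derivative (GP lam (tau : F) i)) := by
      rw [derivative_sub, derivative_mul, derivative_mul, C_sub]
      linear_combination (-(EE lam M * GP lam (tau : F) i)) * hX
    rwa [e] at h4

section Mat

variable {L n : ℕ}

/-- the number of a row -/
def rho (r : Fin L × Fin n) : ℕ := (finProdFinEquiv r : ℕ)

theorem rho_lt (r : Fin L × Fin n) : rho r < L * n := (finProdFinEquiv r).2

theorem rho_inj {r r' : Fin L × Fin n} (h : rho r = rho r') : r = r' :=
  finProdFinEquiv.injective (Fin.ext h)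

theorem sum_rho (f : ℕ → ℕ) : ∑ r : Fin L × Fin n, f (rho r) = ∑ i ∈ range (L * n), f i := by
  rw [← Fin.sum_univ_eq_sum_range (fun i => f i) (L * n)]
  exact Equiv.sum_comp finProdFinEquiv (fun i : Fin (L * n) => f i)

/-- confluent Vandermonde matrix -/
def CV (n : ℕ) (Lam : Fin L → F) : Matrix (Fin L × Fin n) (Fin L × Fin n) F :=
  Matrix.of fun r k => ((rho r).choose (k.2 : ℕ) : F) * Lam k.1 ^ (rho r - (k.2 : ℕ))

theorem CV_det (Lam : Fin L → F) (hL : Function.Injective Lam) : (CV n Lam).det ≠ 0 := by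
  intro h0
  obtain ⟨v, hv, hv0⟩ := Matrix.exists_vecMul_eq_zero_iff.2 h0
  have hP : ∀ (r : Fin L × Fin n), (∑ r : Fin L × Fin n, monomial (rho r) (v r)).coeff (rho r) = v r := by
    intro r
    rw [finsetSum_coeff, Finset.sum_eq_single r]
    · rw [coeff_monomial_same]
    · intro b _ hb
      rw [coeff_monomial, if_neg (fun h => hb (rho_inj h))]
    · intro h; exact absurd (Finset.mem_univ r) h
  have hdiv : ∀ l, (X - C (Lam l)) ^ n ∣ ∑ r : Fin L × Fin n, monomial (rho r) (v r) := by
    intro l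
    rw [X_sub_C_pow_dvd_iff, ← taylor_apply, X_pow_dvd_iff]
    intro j hj
    rw [taylor_coeff, map_sum, eval_finsetSum]
    have h1 := congrFun hv0 (l, ⟨j, hj⟩)
    simp only [Matrix.vecMul, dotProduct, CV, Matrix.of_apply, Pi.zero_apply] at h1
    rw [← h1]
    refine Finset.sum_congr rfl (fun r _ => ?_)
    rw [hasseDeriv_monomial, eval_monomial]
    ring
  have hprod : ∏ l : Fin L, (X - C (Lam l)) ^ n ∣ ∑ r : Fin L × Fin n, monomial (rho r) (v r) := by
    refine Finset.prod_dvd_of_coprime ?_ (fun l _ => hdiv l)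
    intro a _ b _ hab
    exact (pairwise_coprime_X_sub_C hL hab).pow
  have hdeg : (∏ l : Fin L, (X - C (Lam l)) ^ n).natDegree = L * n := by
    rw [natDegree_prod_of_monic _ _ (fun l _ => (monic_X_sub_C _).pow n)]
    simp
  have hne : Nonempty (Fin L × Fin n) := by
    by_contra hcon
    rw [not_nonempty_iff] at hcon
    exact hv (Subsingleton.elim _ _)
  obtain ⟨r0⟩ := hne
  have hpos : 0 < L * n := lt_of_le_of_lt (Nat.zero_le _) (rho_lt r0)
  have hlt : (∑ r : Fin L × Fin n, monomial (rho r) (v r)).natDegree < L * n := by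
    refine lt_of_le_of_lt (natDegree_sum_le_of_forall_le (n := L * n - 1) _ _ (fun r _ => ?_))
      (by omega)
    refine (natDegree_monomial_le _).trans ?_
    have := rho_lt r
    omega
  have hz := eq_zero_of_dvd_of_natDegree_lt hprod (by rw [hdeg]; exact hlt)
  apply hv
  funext r
  rw [← hP r, hz, coeff_zero, Pi.zero_apply]

theorem det_coeff {ι : Type*} [Fintype ι] [DecidableEq ι] (M : Matrix ι ι F[X]) (N : ℕ)
    (h : ∀ i j, (M i j).natDegree ≤ N) :
    M.det.coeff (Fintype.card ι * N) = (Matrix.of fun i j => (M i j).coeff N).det := by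
  rw [Matrix.det_apply, Matrix.det_apply, finsetSum_coeff]
  refine Finset.sum_congr rfl (fun σ _ => ?_)
  rw [coeff_smul]
  congr 1
  have := coeff_prod_of_natDegree_le (s := (Finset.univ : Finset ι)) (fun i => M (σ i) i) N
    (fun i _ => h _ _)
  rw [Finset.card_univ] at this
  rw [this]
  rfl

/-- the matrix of the polynomials `GP` -/
noncomputable def GM (Lam : Fin L → F) (T : Fin n → ℕ) :
    Matrix (Fin L × Fin n) (Fin L × Fin n) F[X] :=
  Matrix.of fun r k => GP (Lam k.1) (T k.2 : F) (rho r)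

theorem exists_inv (T : Fin n → ℕ) (hT : Function.Injective (fun i => (T i : F))) :
    ∃ a : Matrix (Fin n) (Fin n) F, ∀ j j' : Fin n,
      ∑ i, (descPochhammer F (j : ℕ)).eval (T i : F) * a i j' = if j = j' then 1 else 0 := by
  have h1 : (Matrix.of (fun i j : Fin n => ((descPochhammer F (j : ℕ)).eval (T i : F)))).det ≠ 0 := by
    rw [← Matrix.det_eval_matrixOfPolynomials_eq_det_vandermonde (fun i => (T i : F))
      (fun j : Fin n => descPochhammer F (j : ℕ)) (fun j => descPochhammer_natDegree F j)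
      (fun j => monic_descPochhammer F j)]
    exact Matrix.det_vandermonde_ne_zero_iff.2 hT
  set B : Matrix (Fin n) (Fin n) F :=
    (Matrix.of (fun i j : Fin n => ((descPochhammer F (j : ℕ)).eval (T i : F)))).transpose with hB
  have h2 : IsUnit B.det := by
    rw [hB, Matrix.det_transpose]
    exact isUnit_iff_ne_zero.2 h1
  refine ⟨B⁻¹, fun j j' => ?_⟩
  have h3 := congrFun (congrFun (Matrix.mul_nonsing_inv B h2) j) j'
  rw [Matrix.mul_apply, Matrix.one_apply] at h3
  rw [← h3]
  rfl

/-- the columns of `GM` after the elimination -/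
theorem coeff_q (a : Matrix (Fin n) (Fin n) F) (T : Fin n → ℕ)
    (ha : ∀ j j' : Fin n, ∑ i, (descPochhammer F (j : ℕ)).eval (T i : F) * a i j' =
      if j = j' then 1 else 0) (lam : F) (m : ℕ) (j : Fin n) (k : ℕ) (hk : m ≤ k + j) :
    (∑ i, GP lam (T i : F) m * C (a i j)).coeff k =
      if m = k + j then (m.choose j : F) * lam ^ (m - (j : ℕ)) else 0 := by
  rw [finsetSum_coeff]
  have e : ∀ i, (GP lam (T i : F) m * C (a i j)).coeff k = ((m.choose k : F) * lam ^ k) *
      ((descPochhammer F (m - k)).eval (T i : F) * a i j) := by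
    intro i
    rw [coeff_mul_C, GP_coeff]
    ring
  rw [Finset.sum_congr rfl (fun i _ => e i), ← Finset.mul_sum]
  rcases Nat.lt_or_ge m k with h | h
  · rw [Nat.choose_eq_zero_of_lt h, if_neg (by omega)]
    simp
  · have hj : m - k < n := by have := j.2; omega
    have h1 := ha ⟨m - k, hj⟩ j
    simp only at h1
    rw [h1]
    by_cases hh : m = k + j
    · rw [if_pos (Fin.ext (by simp only; omega)), if_pos hh, mul_one]
      have e1 : m - (j : ℕ) = k := by omega
      rw [e1, ← Nat.choose_symm_of_eq_add (show m = j + k by omega)]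
    · rw [if_neg (fun h' => hh (by have := congrArg Fin.val h'; simp only at this; omega)),
        if_neg hh, mul_zero]

theorem GM_det (Lam : Fin L → F) (T : Fin n → ℕ) (hL : Function.Injective Lam)
    (hT : Function.Injective (fun i => (T i : F))) (e : ℕ)
    (he : L * n * (L * n - 1) < 2 * e + L * (n * (n - 1))) : ¬ X ^ e ∣ (GM Lam T).det := by
  intro hdvd
  obtain ⟨a, ha⟩ := exists_inv T hT
  set N := L * n with hN
  set A : Matrix (Fin L × Fin n) (Fin L × Fin n) F[X] :=
    Matrix.of fun k k' => if k.1 = k'.1 then C (a k.2 k'.2) else 0 with hA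
  set M : Matrix (Fin L × Fin n) (Fin L × Fin n) F[X] :=
    Matrix.diagonal (fun r => X ^ (N - rho r)) * (GM Lam T * A) *
      Matrix.diagonal (fun k => X ^ (k.2 : ℕ)) with hM
  have hGA : ∀ r k, (GM Lam T * A) r k = ∑ i, GP (Lam k.1) (T i : F) (rho r) * C (a i k.2) := by
    intro r k
    rw [Matrix.mul_apply, Fintype.sum_prod_type, Finset.sum_eq_single k.1]
    · refine Finset.sum_congr rfl (fun i _ => ?_)
      rw [hA, Matrix.of_apply, if_pos rfl]
      rfl
    · intro l _ hl
      refine Finset.sum_eq_zero (fun i _ => ?_)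
      rw [hA, Matrix.of_apply, if_neg hl, mul_zero]
    · intro h; exact absurd (Finset.mem_univ _) h
  have hMc : ∀ r k m, N ≤ m → (M r k).coeff m =
      if m = N then ((rho r).choose (k.2 : ℕ) : F) * Lam k.1 ^ (rho r - (k.2 : ℕ)) else 0 := by
    intro r k m hm
    have hr := rho_lt r
    rw [hM, Matrix.mul_diagonal, Matrix.diagonal_mul, hGA, coeff_mul_X_pow', coeff_X_pow_mul']
    by_cases h1 : (k.2 : ℕ) ≤ m
    · rw [if_pos h1]
      by_cases h2 : N - rho r ≤ m - (k.2 : ℕ)
      · rw [if_pos h2, coeff_q a T ha (Lam k.1) (rho r) k.2 _ (by omega)]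
        by_cases h3 : m = N
        · rw [if_pos (by omega), if_pos h3]
        · rw [if_neg (by omega), if_neg h3]
      · rw [if_neg h2]
        by_cases h3 : m = N
        · rw [if_pos h3, Nat.choose_eq_zero_of_lt (by omega)]
          simp
        · rw [if_neg h3]
    · rw [if_neg h1]
      by_cases h3 : m = N
      · rw [if_pos h3, Nat.choose_eq_zero_of_lt (by omega)]
        simp
      · rw [if_neg h3]
  have hdeg : ∀ r k, (M r k).natDegree ≤ N := by
    intro r k
    rw [natDegree_le_iff_coeff_eq_zero]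
    intro m hm
    rw [hMc r k m hm.le, if_neg (by omega)]
  have hcoef := det_coeff M N hdeg
  have hCV : (Matrix.of fun i j => (M i j).coeff N) = CV n Lam := by
    ext r k
    rw [Matrix.of_apply, hMc r k N le_rfl, if_pos rfl, CV, Matrix.of_apply]
  rw [hCV, Fintype.card_prod, Fintype.card_fin, Fintype.card_fin, ← hN] at hcoef
  have hdet : M.det = X ^ (∑ r : Fin L × Fin n, (N - rho r)) * ((GM Lam T).det * A.det) *
      X ^ (∑ k : Fin L × Fin n, (k.2 : ℕ)) := by
    rw [hM, Matrix.det_mul, Matrix.det_mul, Matrix.det_mul, Matrix.det_diagonal,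
      Matrix.det_diagonal, Finset.prod_pow_eq_pow_sum, Finset.prod_pow_eq_pow_sum]
  have hS1 : (∑ r : Fin L × Fin n, (N - rho r)) * 2 = N * (N + 1) := by
    rw [sum_rho (fun i => N - i)]
    have h1 : ∑ i ∈ range N, (N - i) = ∑ i ∈ range N, (i + 1) := by
      rw [← Finset.sum_range_reflect]
      refine Finset.sum_congr rfl (fun i hi => ?_)
      have := Finset.mem_range.1 hi
      omega
    rw [h1, Finset.sum_add_distrib, add_mul, Finset.sum_range_id_mul_two]
    simp only [Finset.sum_const, Finset.card_range, smul_eq_mul, mul_one]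
    rcases Nat.eq_zero_or_pos N with h | h
    · rw [h]
    · obtain ⟨m, hm⟩ : ∃ m, N = m + 1 := ⟨N - 1, by omega⟩
      rw [hm, Nat.add_sub_cancel]
      ring
  have hS2 : (∑ k : Fin L × Fin n, (k.2 : ℕ)) * 2 = L * (n * (n - 1)) := by
    rw [Fintype.sum_prod_type]
    simp only [Finset.sum_const, Finset.card_univ, Fintype.card_fin, smul_eq_mul]
    rw [mul_assoc, Fin.sum_univ_eq_sum_range (fun i => i) n, Finset.sum_range_id_mul_two]
  obtain ⟨w, hw⟩ := hdvd
  have hbig : N * N < (∑ r : Fin L × Fin n, (N - rho r)) + e + (∑ k : Fin L × Fin n, (k.2 : ℕ)) := by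
    have h3 : N * (N + 1) = N * N + N := by ring
    have h4 : N * (N - 1) + N = N * N := by
      rcases Nat.eq_zero_or_pos N with h | h
      · rw [h]
      · obtain ⟨m, hm⟩ : ∃ m, N = m + 1 := ⟨N - 1, by omega⟩
        rw [hm, Nat.add_sub_cancel]
        ring
    omega
  have hdvd2 : X ^ (N * N + 1) ∣ M.det := by
    rw [hdet, hw]
    refine (pow_dvd_pow X (Nat.succ_le_of_lt hbig)).trans ⟨w * A.det, ?_⟩
    rw [pow_add, pow_add]
    ring
  rw [X_pow_dvd_iff] at hdvd2
  have h5 := hdvd2 (N * N) (Nat.lt_succ_self _)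
  rw [hcoef] at h5
  exact CV_det Lam hL h5

end Mat

/-- the sequence `n (n-1) ⋯ (n-i+1) lam ^ (n-i)` -/
def SQ (i : ℕ) (lam : F) (n : ℕ) : F := (n.descFactorial i : F) * lam ^ (n - i)

theorem coeff_X_pow_EE (lam : F) (M : ℕ) (hM : ∀ k : ℕ, 0 < k → k < M → (k : F) ≠ 0) (tau k : ℕ)
    (hk : k < M) : (k.factorial : F) * (X ^ tau * EE lam M).coeff k = SQ tau lam k := by
  have hf : ∀ m : ℕ, m < M → (m.factorial : F) ≠ 0 := by
    intro m
    induction m with
    | zero => intro _; simp
    | succ m ih =>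
      intro hm
      rw [Nat.factorial_succ, Nat.cast_mul]
      exact mul_ne_zero (hM _ (by omega) hm) (ih (by omega))
  rw [coeff_X_pow_mul', SQ]
  split_ifs with h
  · rw [EE_coeff, if_pos (by omega)]
    have h1 := Nat.factorial_mul_descFactorial h
    have h2 := hf (k - tau) (by omega)
    have h3 : (((k - tau).factorial : ℕ) : F) * (k.descFactorial tau : F) = (k.factorial : F) := by
      exact_mod_cast congrArg (fun n : ℕ => (n : F)) h1
    rw [← h3]
    field_simp
  · rw [Nat.descFactorial_of_lt (by omega)]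
    simp

/-- **Zero estimate.** -/
theorem zero_estimate {L n : ℕ} (Lam : Fin L → F) (T : Fin n → ℕ) (hL : Function.Injective Lam)
    (hT : Function.Injective (fun i => (T i : F))) (M : ℕ)
    (hM : ∀ k : ℕ, 0 < k → k < M → (k : F) ≠ 0) (c : Fin L → Fin n → F)
    (hrel : ∀ k < M, ∑ l, ∑ i, c l i * SQ (T i) (Lam l) k = 0) (l0 : Fin L) (i0 : Fin n)
    (hc : c l0 i0 ≠ 0) : 2 * M ≤ 2 * T i0 + L * (L - 1) * n ^ 2 := by
  by_contra hcon
  push Not at hcon
  have hf : ∀ m : ℕ, m < M → (m.factorial : F) ≠ 0 := by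
    intro m
    induction m with
    | zero => intro _; simp
    | succ m ih =>
      intro hm
      rw [Nat.factorial_succ, Nat.cast_mul]
      exact mul_ne_zero (hM _ (by omega) hm) (ih (by omega))
  have hMT : T i0 < M := by omega
  set v : Fin L × Fin n → F[X] := fun k => C (c k.1 k.2) * (X ^ (T k.2) * EE (Lam k.1) M) with hv
  have hf0 : X ^ M ∣ ∑ k, v k := by
    rw [X_pow_dvd_iff]
    intro k hk
    have h1 := hrel k hk
    have h2 : (k.factorial : F) * (∑ k, v k).coeff k = 0 := by
      rw [← h1, Fintype.sum_prod_type, finsetSum_coeff, Finset.mul_sum]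
      refine Finset.sum_congr rfl (fun l _ => ?_)
      rw [finsetSum_coeff, Finset.mul_sum]
      refine Finset.sum_congr rfl (fun i _ => ?_)
      rw [hv]
      simp only
      rw [coeff_C_mul, ← coeff_X_pow_EE (Lam l) M hM (T i) k hk]
      ring
    exact (mul_eq_zero.1 h2).resolve_left (hf k hk)
  have hGv : ∀ r, X ^ M ∣ ∑ k, GM Lam T r k * v k := by
    intro r
    have h1 := DD_dvd hf0 (rho r)
    rw [map_sum] at h1
    have h2 : X ^ M ∣ ∑ k, (DD (rho r) (v k) - GM Lam T r k * v k) := by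
      refine Finset.dvd_sum (fun k _ => ?_)
      have h3 := Dvd.dvd.mul_left (DD_mono (Lam k.1) M hM (T k.2) (rho r)) (C (c k.1 k.2))
      have e1 : DD (rho r) (v k) - GM Lam T r k * v k = C (c k.1 k.2) *
          ((DD (rho r)) (X ^ T k.2 * EE (Lam k.1) M) - X ^ T k.2 * EE (Lam k.1) M *
            GP (Lam k.1) (T k.2 : F) (rho r)) := by
        rw [hv]
        simp only
        rw [← smul_eq_C_mul, map_smul, smul_eq_C_mul, smul_eq_C_mul, GM, Matrix.of_apply]
        ring
      rw [e1]
      exact h3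
    rw [Finset.sum_sub_distrib] at h2
    have h3 := dvd_sub h1 h2
    rwa [sub_sub_cancel] at h3
  have hdet : X ^ M ∣ (GM Lam T).det * v (l0, i0) := by
    have h1 : ∑ r, (GM Lam T).adjugate (l0, i0) r * (∑ k, GM Lam T r k * v k) =
        (GM Lam T).det * v (l0, i0) := by
      have h2 : ((GM Lam T).adjugate *ᵥ ((GM Lam T) *ᵥ v)) (l0, i0) =
          (GM Lam T).det * v (l0, i0) := by
        rw [Matrix.mulVec_mulVec, Matrix.adjugate_mul, Matrix.smul_mulVec, Matrix.one_mulVec]
        rfl
      exact h2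
    rw [← h1]
    exact Finset.dvd_sum (fun r _ => Dvd.dvd.mul_left (hGv r) _)
  have hE : ¬ (X : F[X]) ∣ EE (Lam l0) M := by
    rw [X_dvd_iff, EE_coeff, if_pos (by omega)]
    simp
  have h1 : X ^ M ∣ (X ^ (T i0) * ((GM Lam T).det * C (c l0 i0))) * EE (Lam l0) M := by
    have e1 : (X ^ (T i0) * ((GM Lam T).det * C (c l0 i0))) * EE (Lam l0) M =
        (GM Lam T).det * v (l0, i0) := by
      rw [hv]; simp only; ring
    rw [e1]; exact hdet
  have h2 := prime_X.pow_dvd_of_dvd_mul_right M hE h1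
  have h3 : X ^ (M - T i0) ∣ (GM Lam T).det * C (c l0 i0) := by
    obtain ⟨w, hw⟩ := h2
    refine ⟨w, ?_⟩
    have h4 : (X : F[X]) ^ M = X ^ (T i0) * X ^ (M - T i0) := by
      rw [← pow_add]; congr 1; omega
    rw [h4, mul_assoc] at hw
    exact mul_left_cancel₀ (pow_ne_zero _ X_ne_zero) hw
  have h4 : X ^ (M - T i0) ∣ (GM Lam T).det := by
    have hu : IsUnit (C (c l0 i0)) := isUnit_C.2 (isUnit_iff_ne_zero.2 hc)
    exact (hu.dvd_mul_right).1 h3
  refine GM_det Lam T hL hT (M - T i0) ?_ h4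
  have hLpos : 0 < L := lt_of_le_of_lt (Nat.zero_le _) l0.2
  have hnpos : 0 < n := lt_of_le_of_lt (Nat.zero_le _) i0.2
  obtain ⟨L', rfl⟩ : ∃ L', L = L' + 1 := ⟨L - 1, by omega⟩
  obtain ⟨n', rfl⟩ : ∃ n', n = n' + 1 := ⟨n - 1, by omega⟩
  rw [Nat.add_sub_cancel] at hcon ⊢
  have e2 : (L' + 1) * (n' + 1) - 1 = L' * (n' + 1) + n' := by
    have : (L' + 1) * (n' + 1) = L' * (n' + 1) + n' + 1 := by ring
    omega
  rw [e2]
  have e3 : (L' + 1) * (n' + 1) * (L' * (n' + 1) + n') =
      (L' + 1) * L' * (n' + 1) ^ 2 + (L' + 1) * ((n' + 1) * n') := by ring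
  rw [e3]
  omega

end Pool.Agent.TH350.RC
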